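import Pool.Agent.Y892.UF.G1

/-!
Genus theory: the radicands that can have unique factorisation.
-/

set_option autoImplicit false

namespace Pool.Agent.Y892.UF

open Finset NumberField Pool.Agent.H38R2.CG Pool.Agent.H38R2.CG.FINh

/-- a divisor `e ≡ 1 mod 4` prevents unique factorisation -/
theorem genus (K : Type) [Field K] [NumberField K] (d : ℕ) (hd1 : 1 < d) (hds : Squarefree d)
    (hrank : Module.finrank ℚ K = 2) (hx : ∃ x : K, x ^ 2 = (d : K))
    (hU : UniqueFactorizationMonoid (𝓞 K)) {e : ℕ} (hed : e ∣ d) (he4 : e % 4 = 1) (he1 : 1 < e) :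
    e = d := by
  by_contra hne
  obtain ⟨f, rfl⟩ := hed
  have hf1 : 1 < f := by
    rcases Nat.lt_or_ge 1 f with h | h
    · exact h
    · exfalso
      interval_cases f
      · omega
      · exact hne (by ring)
  obtain ⟨l, hlp, hl1, hl2, j1, j2⟩ := exists_prime_aux hds he4 he1 hf1
  haveI : Fact l.Prime := ⟨hlp⟩
  have hlodd : Odd l := hlp.odd_of_ne_two (by omega)
  have hfund := isFund_Dof hd1 hds
  have hdisc : NumberField.discr K = ((Dof (e * f) : ℕ) : ℤ) := by
    rw [T_N0d K (e * f) hd1 hds hrank hx]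
    unfold Dof
    split_ifs <;> simp
  have hDof : Dof (e * f) = e * f ∨ Dof (e * f) = 4 * (e * f) := by
    unfold Dof
    split_ifs
    · exact Or.inl rfl
    · exact Or.inr rfl
  have hchi : chi ((Dof (e * f) : ℕ) : ℤ) l = 1 := by
    rw [KRh.chi_odd hlodd]
    rcases hDof with h | h
    · rw [h]
      exact j2
    · rw [h]
      push_cast
      push_cast at j2
      rw [jacobiSym.mul_left, j2, mul_one, show (4 : ℤ) = 2 ^ 2 by norm_num, jacobiSym.sq_one']
      have : Nat.Coprime 2 l := by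
        rw [Nat.coprime_two_left]
        exact hlodd
      exact_mod_cast this
  obtain ⟨P, P', -, hP, -, hPn, -, -⟩ :=
    ((T_SPL T_N0) K (Dof (e * f)) hfund hrank hdisc l hlp).1 hchi
  obtain ⟨emb⟩ := T_N0 K (Dof (e * f)) hfund hrank hdisc
  haveI := hU
  haveI : IsPrincipalIdealRing (𝓞 K) :=
    IsPrincipalIdealRing.of_isDedekindDomain_of_uniqueFactorizationMonoid (𝓞 K)
  obtain ⟨x, hxP⟩ := (IsPrincipalIdealRing.principal P).principal
  have hxn : (Algebra.norm ℤ x).natAbs = l := by
    rw [← hPn, hxP]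
    exact (Ideal.absNorm_span_singleton x).symm
  obtain ⟨u, v, -, hσ, hτ⟩ := emb.int1 x
  have hnrm := emb.nrm (x : K)
  have hcoe : ((Algebra.norm ℤ x : ℤ) : ℚ) = Algebra.norm ℚ (x : K) := Algebra.coe_norm_int x
  rw [← hcoe] at hnrm
  obtain ⟨N, hN⟩ : ∃ N, N = Algebra.norm ℤ x := ⟨_, rfl⟩
  rw [← hN] at hxn hnrm
  have hD0 : (0 : ℝ) ≤ ((Dof (e * f) : ℕ) : ℝ) := Nat.cast_nonneg _
  have heq : 4 * N = u ^ 2 - (Dof (e * f) : ℤ) * v ^ 2 := by
    have h1 : (4 : ℝ) * (N : ℝ) = (u : ℝ) ^ 2 - ((Dof (e * f) : ℕ) : ℝ) * (v : ℝ) ^ 2 := by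
      have h2 := Real.mul_self_sqrt hD0
      push_cast at hnrm
      rw [hnrm, hσ, hτ]
      linear_combination (-(v : ℝ) ^ 2) * h2
    exact_mod_cast h1
  have hDe : (e : ℤ) ∣ (Dof (e * f) : ℤ) := by
    rcases hDof with h | h
    · rw [h]
      exact_mod_cast dvd_mul_right e f
    · rw [h]
      exact_mod_cast Dvd.dvd.mul_left (dvd_mul_right e f) 4
  have hJ1 : jacobiSym (4 * N) e = jacobiSym u e ^ 2 := by
    rw [← jacobiSym.pow_left]
    apply jacobiSym.mod_left'
    rw [heq]
    obtain ⟨k, hk⟩ := hDe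
    rw [hk]
    have : u ^ 2 - (e : ℤ) * k * v ^ 2 = u ^ 2 + (e : ℤ) * (-(k * v ^ 2)) := by ring
    rw [this, Int.add_mul_emod_self_left]
  have heodd : Odd e := Nat.odd_iff.2 (by omega)
  have h4e : jacobiSym 4 e = 1 := by
    rw [show (4 : ℤ) = 2 ^ 2 by norm_num, jacobiSym.sq_one']
    have : Nat.Coprime 2 e := by
      rw [Nat.coprime_two_left]
      exact heodd
    exact_mod_cast this
  have hm1 : jacobiSym (-1) e = 1 := by
    rw [jacobiSym.at_neg_one heodd]
    exact ZMod.χ₄_nat_one_mod_four he4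
  have hJ2 : jacobiSym (4 * N) e = -1 := by
    rw [jacobiSym.mul_left, h4e, one_mul]
    rcases Int.natAbs_eq N with h | h
    · rw [h, hxn]
      exact j1
    · rw [h, hxn, ← neg_one_mul, jacobiSym.mul_left, hm1, one_mul]
      exact j1
  rw [hJ2] at hJ1
  have : 0 ≤ jacobiSym u e ^ 2 := sq_nonneg _
  omega

/-- the possible radicands -/
theorem cand_of_ufd (K : Type) [Field K] [NumberField K] (d : ℕ) (hd1 : 1 < d)
    (hds : Squarefree d) (hrank : Module.finrank ℚ K = 2) (hx : ∃ x : K, x ^ 2 = (d : K))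
    (hU : UniqueFactorizationMonoid (𝓞 K)) :
    d.Prime ∨ (∃ p : ℕ, p.Prime ∧ p % 4 = 3 ∧ d = 2 * p) ∨
      (∃ p q : ℕ, p.Prime ∧ q.Prime ∧ p < q ∧ p % 4 = 3 ∧ q % 4 = 3 ∧ d = p * q) := by
  have hg : ∀ e : ℕ, e ∣ d → e % 4 = 1 → 1 < e → e = d := fun e h1 h2 h3 =>
    genus K d hd1 hds hrank hx hU h1 h2 h3
  by_cases hdp : d.Prime
  · exact Or.inl hdp
  right
  have h3 : ∀ p : ℕ, p.Prime → p ∣ d → p = 2 ∨ p % 4 = 3 := by
    intro p hp hpd
    rcases hp.eq_two_or_odd with h | h
    · exact Or.inl h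
    · right
      have h4 : p % 4 ≠ 1 := by
        intro h4
        have := hg p hpd h4 hp.one_lt
        rw [this] at hp
        exact hdp hp
      omega
  -- an odd prime divisor
  obtain ⟨p, hp, f, hf⟩ := Nat.exists_prime_and_dvd (by omega : d ≠ 1)
  have hf1 : 1 < f := by
    rcases Nat.lt_or_ge 1 f with h | h
    · exact h
    · exfalso
      interval_cases f
      · omega
      · rw [mul_one] at hf
        rw [hf] at hdp
        exact hdp hp
  obtain ⟨q, hq, g, hg2⟩ := Nat.exists_prime_and_dvd (by omega : f ≠ 1)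
  have hpd : p ∣ d := ⟨f, hf⟩
  have hqd : q ∣ d := ⟨p * g, by rw [hf, hg2]; ring⟩
  have hcop : Nat.Coprime p f := by
    rw [hf] at hds
    exact (Nat.squarefree_mul_iff.1 hds).1
  have hpq : p ≠ q := by
    rintro rfl
    have : p ∣ 1 := by
      have h5 : Nat.gcd p f = 1 := hcop
      rw [← h5]
      exact Nat.dvd_gcd dvd_rfl ⟨g, hg2⟩
    exact hp.one_lt.ne' (Nat.dvd_one.1 this)
  have hdpq : d = p * q * g := by rw [hf, hg2]; ring
  -- the third factor is trivial
  have hg1 : g = 1 := by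
    by_contra hne
    obtain ⟨r, hr, k, hk⟩ := Nat.exists_prime_and_dvd hne
    have hrd : r ∣ d := ⟨p * q * k, by rw [hdpq, hk]; ring⟩
    have hsq : Squarefree (p * q * (r * k)) := by
      rw [← hk, ← hdpq]
      exact hds
    have hcop2 : Nat.Coprime (p * q) r :=
      Nat.Coprime.coprime_mul_right_right (Nat.squarefree_mul_iff.1 hsq).1
    have hpr : p ≠ r := by
      rintro rfl
      have := Nat.Coprime.coprime_mul_right hcop2
      rw [Nat.coprime_self] at this
      exact hp.one_lt.ne' this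
    have hqr : q ≠ r := by
      rintro rfl
      have := Nat.Coprime.coprime_mul_left hcop2
      rw [Nat.coprime_self] at this
      exact hq.one_lt.ne' this
    have key : ∀ s t : ℕ, s * t ∣ d → s % 4 = 3 → t % 4 = 3 → s * t = d := by
      intro s t h1 h2 h3
      apply hg (s * t) h1
      · rw [Nat.mul_mod, h2, h3]
      · have : 1 * 1 < s * t := Nat.mul_lt_mul'' (by omega) (by omega)
        omega
    have hp0 := hp.pos
    have hq0 := hq.pos
    have hr0 := hr.one_lt
    have hk0 : 0 < k := by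
      rcases Nat.eq_zero_or_pos k with h | h
      · rw [h, mul_zero] at hk
        rw [hk, mul_zero] at hdpq
        omega
      · exact h
    have hdr : d = p * q * r * k := by rw [hdpq, hk]; ring
    rcases h3 p hp hpd with h5 | h5
    · rcases h3 q hq hqd with h6 | h6
      · omega
      rcases h3 r hr hrd with h7 | h7
      · omega
      have h8 := key q r ⟨p * k, by rw [hdr]; ring⟩ h6 h7
      rw [hdr, h5] at h8
      have : 0 < q * r * k := by positivity
      nlinarith
    · rcases h3 q hq hqd with h6 | h6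
      · rcases h3 r hr hrd with h7 | h7
        · omega
        have h8 := key p r ⟨q * k, by rw [hdr]; ring⟩ h5 h7
        rw [hdr, h6] at h8
        have : 0 < p * r * k := by positivity
        nlinarith
      · have h8 := key p q ⟨r * k, by rw [hdr]; ring⟩ h5 h6
        rw [hdr] at h8
        have h9 : 0 < p * q := by positivity
        have h10 : p * q * 1 < p * q * (r * k) := by
          apply Nat.mul_lt_mul_of_pos_left _ h9
          nlinarith
        nlinarith
  rw [hg1, mul_one] at hdpq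
  rcases h3 p hp hpd with h5 | h5
  · rcases h3 q hq hqd with h6 | h6
    · omega
    · left
      exact ⟨q, hq, h6, by rw [hdpq, h5]⟩
  · rcases h3 q hq hqd with h6 | h6
    · left
      exact ⟨p, hp, h5, by rw [hdpq, h6]; ring⟩
    · right
      rcases Nat.lt_or_gt_of_ne hpq with h7 | h7
      · exact ⟨p, q, hp, hq, h7, h5, h6, hdpq⟩
      · exact ⟨q, p, hq, hp, h7, h6, h5, by rw [hdpq]; ring⟩

end Pool.Agent.Y892.UF
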