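import Pool.Agent.H38R2.CG.N0
import Pool.Agent.H38R2.CG.N0d
import Pool.Agent.H38R2.CG.SPL
import Pool.Agent.H38R2.CG.KR
import Pool.Agent.H38R2.CG.FIN
import Mathlib.NumberTheory.LSeries.PrimesInAP

/-!
Genus theory: the radicands that can have unique factorisation.
-/

set_option autoImplicit false

namespace Pool.Agent.Y892.UF

open Finset NumberField Pool.Agent.H38R2.CG Pool.Agent.H38R2.CG.FINh

/-- a non-residue -/
theorem exists_neg {e : ℕ} (he : Squarefree e) (hodd : e % 2 = 1) (h1 : 1 < e) :
    ∃ a : ℕ, jacobiSym a e = -1 := by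
  obtain ⟨p, hp, hpe⟩ := Nat.exists_prime_and_dvd (by omega : e ≠ 1)
  haveI : Fact p.Prime := ⟨hp⟩
  obtain ⟨f, hf⟩ := hpe
  have hp2 : p ≠ 2 := by
    rintro rfl
    omega
  have hcop : Nat.Coprime p f := by
    rw [hf] at he
    exact (Nat.squarefree_mul_iff.1 he).1
  have hf0 : f ≠ 0 := by
    rintro rfl
    omega
  -- a nonsquare mod p
  have hchar : ringChar (ZMod p) ≠ 2 := by
    rw [ZMod.ringChar_zmod_n]
    exact hp2
  obtain ⟨g, hg⟩ := FiniteField.exists_nonsquare hchar
  obtain ⟨a, ha1, ha2⟩ := Nat.chineseRemainder hcop g.val 1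
  refine ⟨a, ?_⟩
  rw [hf, jacobiSym.mul_right' _ hp.ne_zero hf0]
  have e1 : jacobiSym a p = -1 := by
    rw [← jacobiSym.legendreSym.to_jacobiSym, legendreSym.eq_neg_one_iff]
    intro hs
    apply hg
    have : ((a : ℤ) : ZMod p) = g := by
      have h2 := (ZMod.natCast_eq_natCast_iff a g.val p).2 ha1
      rw [ZMod.natCast_zmod_val] at h2
      rw [← h2]
      push_cast
      rfl
    rwa [this] at hs
  have e2 : jacobiSym a f = 1 := by
    have h2 : (a : ℤ) % f = (1 : ℤ) % f := by
      have := ha2
      unfold Nat.ModEq at this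
      exact_mod_cast this
    rw [jacobiSym.mod_left' h2, jacobiSym.one_left]
  rw [e1, e2]
  norm_num

theorem jac_congr {a b n : ℕ} (h : a ≡ b [MOD n]) : jacobiSym a n = jacobiSym b n := by
  apply jacobiSym.mod_left'
  unfold Nat.ModEq at h
  exact_mod_cast h

/-- the auxiliary prime -/
theorem exists_prime_aux {e f : ℕ} (hs : Squarefree (e * f)) (he4 : e % 4 = 1) (he1 : 1 < e)
    (hf1 : 1 < f) : ∃ l : ℕ, l.Prime ∧ e * f < l ∧ 2 < l ∧ jacobiSym l e = -1 ∧
      jacobiSym ((e * f : ℕ) : ℤ) l = 1 := by
  obtain ⟨hcop, hse, hsf⟩ := Nat.squarefree_mul_iff.1 hs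
  obtain ⟨a, ha⟩ := exists_neg hse (by omega) he1
  have hae : Nat.Coprime a e := by
    by_contra hcon
    have : jacobiSym a e = 0 := by
      rw [jacobiSym.eq_zero_iff]
      refine ⟨by omega, ?_⟩
      rw [Int.gcd_natCast_natCast]
      exact hcon
    rw [this] at ha
    norm_num at ha
  rcases Nat.even_or_odd f with hfe | hfo
  · obtain ⟨f', rfl⟩ : ∃ f', f = 2 * f' := by
      obtain ⟨k, hk⟩ := hfe
      exact ⟨k, by omega⟩
    obtain ⟨hc2, -, hsf'⟩ := Nat.squarefree_mul_iff.1 hsf
    have hf'odd : f' % 2 = 1 := by
      rw [Nat.coprime_two_left] at hc2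
      exact Nat.odd_iff.1 hc2
    have hcop' : Nat.Coprime e f' := Nat.Coprime.coprime_mul_left_right hcop
    rcases Nat.lt_or_ge 1 f' with hf'1 | hf'1
    · obtain ⟨b, hb⟩ := exists_neg hsf' hf'odd hf'1
      have hbf : Nat.Coprime b f' := by
        by_contra hcon
        have : jacobiSym b f' = 0 := by
          rw [jacobiSym.eq_zero_iff]
          refine ⟨by omega, ?_⟩
          rw [Int.gcd_natCast_natCast]
          exact hcon
        rw [this] at hb
        norm_num at hb
      obtain ⟨c, hc1, hc2⟩ := Nat.chineseRemainder hcop' a b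
      have h8 : Nat.Coprime (e * f') 8 := by
        have : Nat.Coprime (e * f') 2 := by
          rw [Nat.coprime_two_right, Nat.odd_iff, Nat.mul_mod, hf'odd]
          omega
        have := Nat.Coprime.pow_right 3 this
        simpa using this
      obtain ⟨k, hk1, hk2⟩ := Nat.chineseRemainder h8 c 1
      have hke : k ≡ a [MOD e] := (hk1.of_mul_right f').trans hc1
      have hkf : k ≡ b [MOD f'] := (hk1.of_mul_left e).trans hc2
      have hkcop : Nat.Coprime k (e * f' * 8) := by
        apply Nat.Coprime.mul_right
        · apply Nat.Coprime.mul_right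
          · have := hke.gcd_eq
            unfold Nat.Coprime
            rw [this]
            exact hae
          · have := hkf.gcd_eq
            unfold Nat.Coprime
            rw [this]
            exact hbf
        · have := hk2.gcd_eq
          unfold Nat.Coprime
          rw [this]
          norm_num
      obtain ⟨l, hl1, hlp, hl⟩ := Nat.forall_exists_prime_gt_and_modEq (e * (2 * f'))
        (by positivity : e * f' * 8 ≠ 0) hkcop
      have hl8 : l % 8 = 1 := by
        have := (hl.of_mul_left (e * f')).trans hk2
        exact this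
      have hlodd : Odd l := Nat.odd_iff.2 (by omega)
      have hle : l ≡ a [MOD e] := ((hl.of_mul_right 8).of_mul_right f').trans hke
      have hlf : l ≡ b [MOD f'] := ((hl.of_mul_right 8).of_mul_left e).trans hkf
      have j1 : jacobiSym l e = -1 := by rw [jac_congr hle]; exact ha
      have j2 : jacobiSym l f' = -1 := by rw [jac_congr hlf]; exact hb
      refine ⟨l, hlp, hl1, ?_, j1, ?_⟩
      · have := hlp.two_le
        omega
      · push_cast
        rw [jacobiSym.mul_left, jacobiSym.mul_left,
          jacobiSym.quadratic_reciprocity_one_mod_four he4 hlodd, j1,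
          jacobiSym.quadratic_reciprocity_one_mod_four' (Nat.odd_iff.2 hf'odd) (by omega), j2,
          jacobiSym.at_two hlodd, ZMod.χ₈_nat_eq_if_mod_eight]
        rw [if_neg (by omega), if_pos (Or.inl hl8)]
        norm_num
    · have hf'1' : f' = 1 := by omega
      subst hf'1'
      have h8 : Nat.Coprime e 8 := by
        have : Nat.Coprime e 2 := by
          rw [Nat.coprime_two_right, Nat.odd_iff]
          omega
        have := Nat.Coprime.pow_right 3 this
        simpa using this
      obtain ⟨k, hk1, hk2⟩ := Nat.chineseRemainder h8 a 5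
      have hkcop : Nat.Coprime k (e * 8) := by
        apply Nat.Coprime.mul_right
        · have := hk1.gcd_eq
          unfold Nat.Coprime
          rw [this]
          exact hae
        · have := hk2.gcd_eq
          unfold Nat.Coprime
          rw [this]
          norm_num
      obtain ⟨l, hl1, hlp, hl⟩ := Nat.forall_exists_prime_gt_and_modEq (e * (2 * 1))
        (by positivity : e * 8 ≠ 0) hkcop
      have hl8 : l % 8 = 5 := by
        have := (hl.of_mul_left e).trans hk2
        exact this
      have hlodd : Odd l := Nat.odd_iff.2 (by omega)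
      have hle : l ≡ a [MOD e] := (hl.of_mul_right 8).trans hk1
      have j1 : jacobiSym l e = -1 := by rw [jac_congr hle]; exact ha
      refine ⟨l, hlp, hl1, ?_, j1, ?_⟩
      · have := hlp.two_le
        omega
      · push_cast
        rw [jacobiSym.mul_left,
          jacobiSym.quadratic_reciprocity_one_mod_four he4 hlodd, j1,
          jacobiSym.at_two hlodd, ZMod.χ₈_nat_eq_if_mod_eight]
        rw [if_neg (by omega), if_neg (by omega)]
        norm_num
  · have hfodd := Nat.odd_iff.1 hfo
    obtain ⟨b, hb⟩ := exists_neg hsf hfodd hf1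
    have hbf : Nat.Coprime b f := by
      by_contra hcon
      have : jacobiSym b f = 0 := by
        rw [jacobiSym.eq_zero_iff]
        refine ⟨by omega, ?_⟩
        rw [Int.gcd_natCast_natCast]
        exact hcon
      rw [this] at hb
      norm_num at hb
    obtain ⟨c, hc1, hc2⟩ := Nat.chineseRemainder hcop a b
    have h8 : Nat.Coprime (e * f) 8 := by
      have : Nat.Coprime (e * f) 2 := by
        rw [Nat.coprime_two_right, Nat.odd_iff, Nat.mul_mod, hfodd]
        omega
      have := Nat.Coprime.pow_right 3 this
      simpa using this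
    obtain ⟨k, hk1, hk2⟩ := Nat.chineseRemainder h8 c 1
    have hke : k ≡ a [MOD e] := (hk1.of_mul_right f).trans hc1
    have hkf : k ≡ b [MOD f] := (hk1.of_mul_left e).trans hc2
    have hkcop : Nat.Coprime k (e * f * 8) := by
      apply Nat.Coprime.mul_right
      · apply Nat.Coprime.mul_right
        · have := hke.gcd_eq
          unfold Nat.Coprime
          rw [this]
          exact hae
        · have := hkf.gcd_eq
          unfold Nat.Coprime
          rw [this]
          exact hbf
      · have := hk2.gcd_eq
        unfold Nat.Coprime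
        rw [this]
        norm_num
    obtain ⟨l, hl1, hlp, hl⟩ := Nat.forall_exists_prime_gt_and_modEq (e * f)
      (by positivity : e * f * 8 ≠ 0) hkcop
    have hl8 : l % 8 = 1 := by
      have := (hl.of_mul_left (e * f)).trans hk2
      exact this
    have hlodd : Odd l := Nat.odd_iff.2 (by omega)
    have hle : l ≡ a [MOD e] := ((hl.of_mul_right 8).of_mul_right f).trans hke
    have hlf : l ≡ b [MOD f] := ((hl.of_mul_right 8).of_mul_left e).trans hkf
    have j1 : jacobiSym l e = -1 := by rw [jac_congr hle]; exact ha
    have j2 : jacobiSym l f = -1 := by rw [jac_congr hlf]; exact hb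
    refine ⟨l, hlp, hl1, ?_, j1, ?_⟩
    · have := hlp.two_le
      omega
    · push_cast
      rw [jacobiSym.mul_left,
        jacobiSym.quadratic_reciprocity_one_mod_four he4 hlodd, j1,
        jacobiSym.quadratic_reciprocity_one_mod_four' hfo (by omega), j2]
      norm_num

end Pool.Agent.Y892.UF
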