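import Pool.Agent.H307R2.OP.PC
import Pool.Agent.H38R2.CG2.CH

/-!
Primes `≡ 3 mod 4`: counting, reciprocals.
-/

set_option autoImplicit false

namespace Pool.Agent.Y892.UF

open Finset Filter Topology Pool.Agent.H38R2.CG Pool.Agent.H38R2.CG2

/-- the primes `≡ 3 mod 4` up to `n` -/
def P3 (n : ℕ) : Finset ℕ := (Icc 1 n).filter (fun p => p.Prime ∧ p % 4 = 3)

/-- the sum of their reciprocals -/
noncomputable def La (n : ℕ) : ℝ := ∑ p ∈ P3 n, 1 / (p : ℝ)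

theorem mem_P3 {n p : ℕ} : p ∈ P3 n ↔ p ≤ n ∧ p.Prime ∧ p % 4 = 3 := by
  unfold P3
  rw [mem_filter, mem_Icc]
  constructor
  · rintro ⟨⟨_, h⟩, h2⟩
    exact ⟨h, h2⟩
  · rintro ⟨h, h2⟩
    exact ⟨⟨h2.1.one_lt.le, h⟩, h2⟩

theorem P3_mono {m n : ℕ} (h : m ≤ n) : P3 m ⊆ P3 n := by
  intro p hp
  rw [mem_P3] at hp ⊢
  exact ⟨hp.1.trans h, hp.2⟩

theorem La_mono {m n : ℕ} (h : m ≤ n) : La m ≤ La n := by
  unfold La
  apply sum_le_sum_of_subset_of_nonneg (P3_mono h)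
  intro p _ _
  positivity

theorem La_nonneg (n : ℕ) : 0 ≤ La n := by
  unfold La
  apply sum_nonneg
  intro p _
  positivity

/-- lower bound for the number of primes -/
theorem P3_lower : ∀ᶠ x : ℕ in atTop, (1 / 8 : ℝ) * ((x : ℝ) / Real.log x) ≤ ((P3 x).card : ℝ) := by
  have h := (Pool.Agent.H307R2.OP.PCaux.cnt_tend 3 (Or.inl rfl)).eventually
    (lt_mem_nhds (show (1 / 8 : ℝ) < 1 / 4 by norm_num))
  filter_upwards [h, eventually_ge_atTop 3] with x hx hx3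
  have hx0 : (3 : ℝ) ≤ x := by exact_mod_cast hx3
  have hL : 0 < Real.log x := Real.log_pos (by linarith)
  have h1 : Pool.Agent.H307R2.OP.PCaux.cnt x 3 ≤ ((P3 x).card : ℝ) := by
    unfold Pool.Agent.H307R2.OP.PCaux.cnt
    have : ((Icc 1 x).filter (fun p => p.Prime ∧ p % 8 = 3)).card ≤ (P3 x).card := by
      apply card_le_card
      intro p hp
      rw [mem_filter, mem_Icc] at hp
      rw [mem_P3]
      exact ⟨hp.1.2, hp.2.1, by omega⟩
    exact_mod_cast this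
  rw [lt_div_iff₀ (by linarith)] at hx
  rw [← mul_div_assoc, div_le_iff₀ hL]
  nlinarith

/-- sums over the primes between `x ^ (1 / 2 ^ m)` and `x` -/
theorem block (L : ℝ) (hL0 : 0 ≤ L)
    (hL : ∀ x : ℝ, 1 ≤ x → ∑ p ∈ (Finset.Ioc ⌊√x⌋₊ ⌊x⌋₊).filter Nat.Prime, (1 : ℝ) / p ≤ L)
    (m : ℕ) : ∀ x : ℝ, 1 ≤ x →
    ∑ p ∈ (Finset.Ioc ⌊x ^ ((1 : ℝ) / 2 ^ m)⌋₊ ⌊x⌋₊).filter Nat.Prime, (1 : ℝ) / p ≤ m * L := by
  induction m with
  | zero =>
    intro x _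
    rw [pow_zero, div_one, Real.rpow_one, Ioc_self, filter_empty, sum_empty]
    simp
  | succ m ih =>
    intro x hx
    have hs : 1 ≤ √x := Real.one_le_sqrt.2 hx
    have h1 := ih (√x) hs
    have h2 := hL x hx
    have e : (√x) ^ ((1 : ℝ) / 2 ^ m) = x ^ ((1 : ℝ) / 2 ^ (m + 1)) := by
      rw [Real.sqrt_eq_rpow, ← Real.rpow_mul (by linarith)]
      congr 1
      rw [pow_succ]
      field_simp
    rw [e] at h1
    have h3 : (Finset.Ioc ⌊x ^ ((1 : ℝ) / 2 ^ (m + 1))⌋₊ ⌊x⌋₊).filter Nat.Prime ⊆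
        (Finset.Ioc ⌊x ^ ((1 : ℝ) / 2 ^ (m + 1))⌋₊ ⌊√x⌋₊).filter Nat.Prime ∪
        (Finset.Ioc ⌊√x⌋₊ ⌊x⌋₊).filter Nat.Prime := by
      intro p hp
      rw [mem_union, mem_filter, mem_filter, mem_Ioc, mem_Ioc]
      rw [mem_filter, mem_Ioc] at hp
      by_cases h4 : p ≤ ⌊√x⌋₊
      · exact Or.inl ⟨⟨hp.1.1, h4⟩, hp.2⟩
      · exact Or.inr ⟨⟨not_le.1 h4, hp.1.2⟩, hp.2⟩
    calc ∑ p ∈ (Finset.Ioc ⌊x ^ ((1 : ℝ) / 2 ^ (m + 1))⌋₊ ⌊x⌋₊).filter Nat.Prime, (1 : ℝ) / p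
        ≤ ∑ p ∈ (Finset.Ioc ⌊x ^ ((1 : ℝ) / 2 ^ (m + 1))⌋₊ ⌊√x⌋₊).filter Nat.Prime ∪
          (Finset.Ioc ⌊√x⌋₊ ⌊x⌋₊).filter Nat.Prime, (1 : ℝ) / p :=
          sum_le_sum_of_subset_of_nonneg h3 (fun p _ _ => by positivity)
      _ ≤ ∑ p ∈ (Finset.Ioc ⌊x ^ ((1 : ℝ) / 2 ^ (m + 1))⌋₊ ⌊√x⌋₊).filter Nat.Prime, (1 : ℝ) / p +
          ∑ p ∈ (Finset.Ioc ⌊√x⌋₊ ⌊x⌋₊).filter Nat.Prime, (1 : ℝ) / p := by
          rw [← sum_union_inter]
          have : 0 ≤ ∑ p ∈ (Finset.Ioc ⌊x ^ ((1 : ℝ) / 2 ^ (m + 1))⌋₊ ⌊√x⌋₊).filter Nat.Prime ∩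
            (Finset.Ioc ⌊√x⌋₊ ⌊x⌋₊).filter Nat.Prime, (1 : ℝ) / p :=
            sum_nonneg (fun p _ => by positivity)
          linarith
      _ ≤ m * L + L := add_le_add h1 h2
      _ = ((m + 1 : ℕ) : ℝ) * L := by push_cast; ring

/-- the number of primes, upper bound -/
theorem P3_upper (L : ℝ) (h : ∀ N : ℕ, 2 ≤ N →
    (((Finset.Icc 2 N).filter Nat.Prime).card : ℝ) ≤ L * N / Real.log N) {n : ℕ} (hn : 2 ≤ n) :
    ((P3 n).card : ℝ) ≤ L * n / Real.log n := by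
  refine le_trans ?_ (h n hn)
  have : (P3 n).card ≤ ((Finset.Icc 2 n).filter Nat.Prime).card := by
    apply card_le_card
    intro p hp
    rw [mem_P3] at hp
    rw [mem_filter, mem_Icc]
    exact ⟨⟨hp.2.1.two_le, hp.1⟩, hp.2.1⟩
  exact_mod_cast this

/-- the sum of the reciprocals diverges -/
theorem La_tendsto : Tendsto La atTop atTop := by
  obtain ⟨L, hL0, -, -, hL⟩ := T2_CH
  -- the blocks `(K ^ j, K ^ (j + 1)]`
  obtain ⟨K, hK⟩ : ∃ K : ℕ, K = ⌈32 * L⌉₊ + 2 := ⟨_, rfl⟩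
  have hK2 : 2 ≤ K := by omega
  have hKr : (2 : ℝ) ≤ K := by exact_mod_cast hK2
  have hKL : 32 * L ≤ K := by
    have := Nat.le_ceil (32 * L)
    rw [hK]
    push_cast
    linarith
  have hlK : 0 < Real.log K := Real.log_pos (by linarith)
  obtain ⟨x0, hx0⟩ := eventually_atTop.1 P3_lower
  obtain ⟨j0, hj0⟩ : ∃ j0 : ℕ, ∀ j, j0 ≤ j → x0 ≤ K ^ j ∧ 1 ≤ j := by
    refine ⟨x0 + 1, fun j hj => ⟨?_, by omega⟩⟩
    calc x0 ≤ j := by omega
      _ ≤ K ^ j := (Nat.lt_pow_self (by omega)).le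
  have hstep : ∀ j, j0 ≤ j → La (K ^ j) + 1 / (32 * Real.log K) * (1 / ((j : ℝ) + 1)) ≤
      La (K ^ (j + 1)) := by
    intro j hj
    obtain ⟨h1, hj1⟩ := hj0 j hj
    have hjr : (1 : ℝ) ≤ j := by exact_mod_cast hj1
    have hle : K ^ j ≤ K ^ (j + 1) := Nat.pow_le_pow_right (by omega) (by omega)
    have h2 := hx0 (K ^ (j + 1)) (h1.trans hle)
    have hKj2 : 2 ≤ K ^ j := by
      calc 2 ≤ K := hK2
        _ = K ^ 1 := (pow_one K).symm
        _ ≤ K ^ j := Nat.pow_le_pow_right (by omega) hj1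
    have h3 := P3_upper L hL hKj2
    push_cast at h2 h3
    rw [Real.log_pow] at h2 h3
    push_cast at h2 h3
    have hKp : (0 : ℝ) < (K : ℝ) ^ j := by positivity
    -- number of new primes
    have hsd : P3 (K ^ j) ⊆ P3 (K ^ (j + 1)) := P3_mono hle
    have hnew : (K : ℝ) ^ (j + 1) / (32 * Real.log K) * (1 / ((j : ℝ) + 1)) ≤
        ((P3 (K ^ (j + 1)) \ P3 (K ^ j)).card : ℝ) := by
      have hc : ((P3 (K ^ (j + 1)) \ P3 (K ^ j)).card : ℝ) =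
          ((P3 (K ^ (j + 1))).card : ℝ) - ((P3 (K ^ j)).card : ℝ) := by
        rw [card_sdiff_of_subset hsd, Nat.cast_sub (card_le_card hsd)]
      rw [hc]
      have h4 : L * (K : ℝ) ^ j / (j * Real.log K) ≤
          (1 / 16) * ((K : ℝ) ^ (j + 1) / (((j : ℝ) + 1) * Real.log K)) := by
        rw [div_le_iff₀ (by positivity), pow_succ]
        have e : 1 / 16 * ((K : ℝ) ^ j * K / (((j : ℝ) + 1) * Real.log K)) * (j * Real.log K) =
            (K : ℝ) ^ j * (K / 16 * (j / ((j : ℝ) + 1))) := by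
          field_simp
        rw [e, mul_comm L]
        refine mul_le_mul_of_nonneg_left ?_ hKp.le
        have h5 : (1 : ℝ) / 2 ≤ j / ((j : ℝ) + 1) := by
          rw [div_le_div_iff₀ (by norm_num) (by linarith)]
          linarith
        nlinarith
      have h6 : (K : ℝ) ^ (j + 1) / (32 * Real.log K) * (1 / ((j : ℝ) + 1)) =
          1 / 32 * ((K : ℝ) ^ (j + 1) / (((j : ℝ) + 1) * Real.log K)) := by
        field_simp
      have h7 : 0 ≤ (K : ℝ) ^ (j + 1) / (((j : ℝ) + 1) * Real.log K) := by positivity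
      rw [h6]
      linarith
    have hsum : La (K ^ (j + 1)) = La (K ^ j) +
        ∑ p ∈ P3 (K ^ (j + 1)) \ P3 (K ^ j), 1 / (p : ℝ) := by
      have h9 := sum_sdiff (f := fun p : ℕ => 1 / (p : ℝ)) hsd
      unfold La
      linarith
    rw [hsum]
    have h8 : ((P3 (K ^ (j + 1)) \ P3 (K ^ j)).card : ℝ) * (1 / (K : ℝ) ^ (j + 1)) ≤
        ∑ p ∈ P3 (K ^ (j + 1)) \ P3 (K ^ j), 1 / (p : ℝ) := by
      rw [← nsmul_eq_mul, ← sum_const]
      apply sum_le_sum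
      intro p hp
      rw [Finset.mem_sdiff, mem_P3] at hp
      have hp0 : (0 : ℝ) < p := by exact_mod_cast hp.1.2.1.pos
      apply one_div_le_one_div_of_le hp0
      exact_mod_cast hp.1.1
    have h9 : 1 / (32 * Real.log K) * (1 / ((j : ℝ) + 1)) ≤
        ((P3 (K ^ (j + 1)) \ P3 (K ^ j)).card : ℝ) * (1 / (K : ℝ) ^ (j + 1)) := by
      have hKp' : (0 : ℝ) < (K : ℝ) ^ (j + 1) := by positivity
      calc 1 / (32 * Real.log K) * (1 / ((j : ℝ) + 1)) =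
            (K : ℝ) ^ (j + 1) / (32 * Real.log K) * (1 / ((j : ℝ) + 1)) *
              (1 / (K : ℝ) ^ (j + 1)) := by
            field_simp
        _ ≤ _ := by gcongr
    linarith
  have hsumstep : ∀ n : ℕ, 1 / (32 * Real.log K) *
      (∑ i ∈ range n, 1 / (((j0 + i : ℕ) : ℝ) + 1)) ≤ La (K ^ (j0 + n)) := by
    intro n
    induction n with
    | zero => simp [La_nonneg]
    | succ n ih =>
      rw [sum_range_succ, mul_add]
      have := hstep (j0 + n) (by omega)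
      have e : j0 + (n + 1) = j0 + n + 1 := by ring
      rw [e]
      linarith
  have hdiv : Tendsto (fun n : ℕ => ∑ i ∈ range n, 1 / (((j0 + i : ℕ) : ℝ) + 1)) atTop atTop := by
    have h1 : ¬ Summable (fun i : ℕ => 1 / (((j0 + i : ℕ) : ℝ) + 1)) := by
      intro hs
      apply Real.not_summable_one_div_natCast
      rw [← summable_nat_add_iff (j0 + 1)]
      refine hs.congr (fun i => ?_)
      push_cast
      ring_nf
    exact (not_summable_iff_tendsto_nat_atTop_of_nonneg (fun i => by positivity)).1 h1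
  have hmono : Monotone La := fun m n h => La_mono h
  rw [tendsto_atTop_atTop_iff_of_monotone hmono]
  intro b
  have h1 := hdiv.const_mul_atTop (show 0 < 1 / (32 * Real.log K) by positivity)
  obtain ⟨n, hn⟩ := (h1.eventually_ge_atTop b).exists
  exact ⟨K ^ (j0 + n), hn.trans (hsumstep n)⟩

end Pool.Agent.Y892.UF
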