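import Pool.Agent.H38R2.CG2.AP

/-!
Adding one prime factor to the sieve weights of helper38.
-/

set_option autoImplicit false

namespace Pool.Agent.Y892.UF

open Finset Filter Pool.Agent.H38R2.CG Pool.Agent.H38R2.CG2
open scoped Classical

/-- the weights for the numbers `p q`, `p ∈ R`, where `ρ` are weights for the numbers `q` -/
noncomputable def lft (R : Finset ℕ) (L : ℝ) (ρ : ℕ → ℝ) (d : ℕ) : ℝ :=
  if Squarefree d then (∑ p ∈ R.filter (fun p => p ∣ d), ρ (d / p)) / L else 0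

/-- sums over the multiples of `g` -/
noncomputable def AA (X : ℕ) (ρ : ℕ → ℝ) (g : ℕ) : ℝ :=
  ∑ d ∈ (Finset.Icc 1 X).filter (fun d => g ∣ d), ρ d / d

variable {z X : ℕ} {P : Finset ℕ} {δ : ℝ} {C0 : ℕ} {ρ : ℕ → ℝ} {R : Finset ℕ} {L : ℝ}

theorem sum_lft (hX : 1 ≤ X) (hδ : 2 * δ ≤ 1) (hδ0 : 0 < δ) (h : SWt z X P δ C0 ρ)
    (hR : ∀ p ∈ R, p.Prime ∧ (p : ℝ) ≤ (X : ℝ) ^ δ) (F : ℕ → ℝ) :
    ∑ d ∈ Icc 1 X, lft R L ρ d * F d =
      (∑ p ∈ R, ∑ e ∈ (Icc 1 X).filter (fun e => ¬ p ∣ e), ρ e * F (p * e)) / L := by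
  have hX1 : (1 : ℝ) ≤ X := by exact_mod_cast hX
  have e1 : ∀ d ∈ Icc 1 X, lft R L ρ d * F d =
      (∑ p ∈ R, if p ∣ d ∧ Squarefree d then ρ (d / p) * F d else 0) / L := by
    intro d _
    unfold lft
    by_cases hsq : Squarefree d
    · rw [if_pos hsq, sum_filter, div_mul_eq_mul_div, sum_mul]
      congr 1
      apply sum_congr rfl
      intro p _
      by_cases hp : p ∣ d
      · rw [if_pos hp, if_pos ⟨hp, hsq⟩]
      · rw [if_neg hp, if_neg (fun hh => hp hh.1), zero_mul]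
    · rw [if_neg hsq, zero_mul, sum_eq_zero, zero_div]
      intro p _
      rw [if_neg (fun hh => hsq hh.2)]
  rw [sum_congr rfl e1, ← sum_div, sum_comm]
  congr 1
  apply sum_congr rfl
  intro p hp
  obtain ⟨hpp, hpX⟩ := hR p hp
  rw [← sum_filter]
  rw [← sum_filter_of_ne (s := (Icc 1 X).filter (fun d => p ∣ d ∧ Squarefree d))
    (p := fun d => ρ (d / p) ≠ 0)]
  rotate_left
  · intro d _ hd h0
    rw [h0, zero_mul] at hd
    exact hd rfl
  rw [← sum_filter_of_ne (s := (Icc 1 X).filter (fun e => ¬ p ∣ e)) (p := fun e => ρ e ≠ 0)]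
  rotate_left
  · intro d _ hd h0
    rw [h0, zero_mul] at hd
    exact hd rfl
  apply sum_nbij' (i := fun d => d / p) (j := fun e => p * e)
  · intro d hd
    simp only [mem_filter, mem_Icc] at hd ⊢
    obtain ⟨⟨⟨h1, h2⟩, h3, h4⟩, h5⟩ := hd
    refine ⟨⟨⟨Nat.div_pos (Nat.le_of_dvd (by omega) h3) hpp.pos,
      (Nat.div_le_self _ _).trans h2⟩, ?_⟩, h5⟩
    intro h6
    obtain ⟨k, rfl⟩ := h3
    rw [Nat.mul_div_cancel_left _ hpp.pos] at h6
    have h7 : p * p ∣ p * k := Nat.mul_dvd_mul_left p h6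
    exact hpp.one_lt.ne' (Nat.isUnit_iff.1 (h4 p h7))
  · intro e he
    simp only [mem_filter, mem_Icc] at he ⊢
    obtain ⟨⟨⟨h1, h2⟩, h3⟩, h4⟩ := he
    obtain ⟨s1, s2, s3, s4, s5⟩ := h.supp e h4
    refine ⟨⟨⟨Nat.mul_pos hpp.pos h1, ?_⟩, dvd_mul_right _ _, ?_⟩, ?_⟩
    · have h6 : ((p * e : ℕ) : ℝ) ≤ X := by
        push_cast
        calc (p : ℝ) * e ≤ (X : ℝ) ^ δ * (X : ℝ) ^ δ := by
              gcongr
          _ = (X : ℝ) ^ (δ + δ) := by rw [← Real.rpow_add (by linarith)]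
          _ ≤ (X : ℝ) ^ (1 : ℝ) := Real.rpow_le_rpow_of_exponent_le hX1 (by linarith)
          _ = X := Real.rpow_one _
      exact_mod_cast h6
    · rw [Nat.squarefree_mul ((Nat.Prime.coprime_iff_not_dvd hpp).2 h3)]
      exact ⟨hpp.squarefree, s3⟩
    · rwa [Nat.mul_div_cancel_left _ hpp.pos]
  · intro d hd
    simp only [mem_filter, mem_Icc] at hd
    exact Nat.mul_div_cancel' hd.1.2.1
  · intro e _
    exact Nat.mul_div_cancel_left _ hpp.pos
  · intro d hd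
    simp only [mem_filter, mem_Icc] at hd
    show ρ (d / p) * F d = ρ (d / p) * F (p * (d / p))
    rw [Nat.mul_div_cancel' hd.1.2.1]

/-- the sum for one prime -/
theorem one_p (X : ℕ) (ρ : ℕ → ℝ) {g p : ℕ} (hg : Squarefree g) (hp : p.Prime) :
    ∑ e ∈ (Icc 1 X).filter (fun e => ¬ p ∣ e), ρ e * (if g ∣ p * e then 1 / ((p * e : ℕ) : ℝ) else 0) =
      1 / p * (AA X ρ (if p ∣ g then g / p else g) - AA X ρ (p * (if p ∣ g then g / p else g))) := by
  obtain ⟨g', hg'⟩ : ∃ g', g' = (if p ∣ g then g / p else g) := ⟨_, rfl⟩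
  rw [← hg']
  have hpg' : ¬ p ∣ g' := by
    rw [hg']
    split_ifs with h
    · intro h6
      obtain ⟨k, rfl⟩ := h
      rw [Nat.mul_div_cancel_left _ hp.pos] at h6
      have h7 : p * p ∣ p * k := Nat.mul_dvd_mul_left p h6
      exact hp.one_lt.ne' (Nat.isUnit_iff.1 (hg p h7))
    · exact h
  have hcop : Nat.Coprime p g' := (Nat.Prime.coprime_iff_not_dvd hp).2 hpg'
  have hdv : ∀ e, g ∣ p * e ↔ g' ∣ e := by
    intro e
    rw [hg']
    split_ifs with h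
    · obtain ⟨k, rfl⟩ := h
      rw [Nat.mul_div_cancel_left _ hp.pos]
      exact Nat.mul_dvd_mul_iff_left hp.pos
    · have hc : Nat.Coprime g p := ((Nat.Prime.coprime_iff_not_dvd hp).2 h).symm
      constructor
      · intro h1
        exact hc.dvd_of_dvd_mul_left h1
      · intro h1
        exact h1.mul_left p
  unfold AA
  have e1 : ∑ d ∈ (Icc 1 X).filter (fun d => g' ∣ d), ρ d / d -
      ∑ d ∈ (Icc 1 X).filter (fun d => p * g' ∣ d), ρ d / d =
      ∑ d ∈ (Icc 1 X).filter (fun d => g' ∣ d ∧ ¬ p ∣ d), ρ d / d := by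
    rw [sub_eq_iff_eq_add, ← sum_union]
    · apply sum_congr _ (fun _ _ => rfl)
      ext d
      simp only [mem_filter, mem_union]
      constructor
      · rintro ⟨h1, h2⟩
        by_cases h3 : p ∣ d
        · exact Or.inr ⟨h1, hcop.mul_dvd_of_dvd_of_dvd h3 h2⟩
        · exact Or.inl ⟨h1, h2, h3⟩
      · rintro (⟨h1, h2, -⟩ | ⟨h1, h2⟩)
        · exact ⟨h1, h2⟩
        · exact ⟨h1, (dvd_mul_left _ _).trans h2⟩
    · rw [disjoint_left]
      intro d h1 h2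
      simp only [mem_filter] at h1 h2
      exact h1.2.2 ((dvd_mul_right _ _).trans h2.2)
  rw [e1, mul_sum, sum_filter, sum_filter]
  apply sum_congr rfl
  intro e _
  by_cases h1 : p ∣ e
  · rw [if_neg (not_not.2 h1), if_neg (fun hh => hh.2 h1)]
  · rw [if_pos h1]
    by_cases h2 : g' ∣ e
    · rw [if_pos ((hdv e).2 h2), if_pos ⟨h2, h1⟩]
      push_cast
      have : (p : ℝ) ≠ 0 := by exact_mod_cast hp.ne_zero
      by_cases he : (e : ℝ) = 0
      · rw [he]; simp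
      · field_simp
    · rw [if_neg (fun hh => h2 ((hdv e).1 hh)), if_neg (fun hh => h2 hh.1), mul_zero]

theorem AA_lft (hX : 1 ≤ X) (hδ : 2 * δ ≤ 1) (hδ0 : 0 < δ) (h : SWt z X P δ C0 ρ)
    (hR : ∀ p ∈ R, p.Prime ∧ (p : ℝ) ≤ (X : ℝ) ^ δ) {g : ℕ} (hg : Squarefree g) :
    AA X (lft R L ρ) g = (∑ p ∈ R, 1 / (p : ℝ) * (AA X ρ (if p ∣ g then g / p else g) -
      AA X ρ (p * (if p ∣ g then g / p else g)))) / L := by
  have e1 : AA X (lft R L ρ) g =
      ∑ d ∈ Icc 1 X, lft R L ρ d * (if g ∣ d then 1 / (d : ℝ) else 0) := by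
    unfold AA
    rw [sum_filter]
    apply sum_congr rfl
    intro d _
    split_ifs
    · ring
    · ring
  rw [e1, sum_lft hX hδ hδ0 h hR]
  congr 1
  apply sum_congr rfl
  intro p hp
  exact one_p X ρ hg (hR p hp).1

theorem GG_eq (X : ℕ) (ρ : ℕ → ℝ) : GG X ρ = AA X ρ 1 := by
  unfold GG AA
  rw [filter_true_of_mem (fun d _ => one_dvd d)]

theorem AA_bd (h : SWt z X P δ C0 ρ) {g : ℕ} (hg : Squarefree g) :
    |AA X ρ g| ≤ (C0 : ℝ) ^ g.primeFactors.card * GG X ρ / g := h.div g hg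

/-- size of the total -/
theorem GG_lft (hX : 1 ≤ X) (hδ : 2 * δ ≤ 1) (hδ0 : 0 < δ) (h : SWt z X P δ C0 ρ) (hL : 0 < L)
    (hG : 0 ≤ GG X ρ)
    (hR : ∀ p ∈ R, p.Prime ∧ (p : ℝ) ≤ (X : ℝ) ^ δ) (hR2 : ∀ p ∈ R, 2 * C0 ≤ p) :
    (∑ p ∈ R, 1 / (p : ℝ)) * GG X ρ / 2 / L ≤ GG X (lft R L ρ) ∧
      GG X (lft R L ρ) ≤ 3 / 2 * (∑ p ∈ R, 1 / (p : ℝ)) * GG X ρ / L := by
  have e1 : GG X (lft R L ρ) = (∑ p ∈ R, 1 / (p : ℝ) * (GG X ρ - AA X ρ p)) / L := by
    rw [GG_eq, AA_lft hX hδ hδ0 h hR squarefree_one]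
    congr 1
    apply sum_congr rfl
    intro p hp
    have h1 : ¬ p ∣ 1 := fun hd => (hR p hp).1.one_lt.ne' (Nat.dvd_one.1 hd)
    rw [if_neg h1, mul_one, GG_eq]
  have key : ∀ p ∈ R, |AA X ρ p| ≤ GG X ρ / 2 := by
    intro p hp
    have h1 := AA_bd h (hR p hp).1.squarefree
    rw [(hR p hp).1.primeFactors, card_singleton, pow_one] at h1
    refine h1.trans ?_
    have h2 : (2 : ℝ) * C0 ≤ p := by exact_mod_cast hR2 p hp
    have h3 : (0 : ℝ) < p := by exact_mod_cast (hR p hp).1.pos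
    rw [div_le_div_iff₀ h3 (by norm_num)]
    nlinarith
  rw [e1]
  constructor
  · rw [div_le_div_iff_of_pos_right hL, sum_mul, sum_div]
    apply sum_le_sum
    intro p hp
    have h1 := abs_le.1 (key p hp)
    have h3 : (0 : ℝ) < p := by exact_mod_cast (hR p hp).1.pos
    have h4 : 0 < 1 / (p : ℝ) := by positivity
    nlinarith [h1.2]
  · rw [div_le_div_iff_of_pos_right hL, mul_sum, sum_mul]
    apply sum_le_sum
    intro p hp
    have h1 := abs_le.1 (key p hp)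
    have h3 : (0 : ℝ) < p := by exact_mod_cast (hR p hp).1.pos
    have h4 : 0 < 1 / (p : ℝ) := by positivity
    nlinarith [h1.1]

end Pool.Agent.Y892.UF
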