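import Pool.Agent.Y892.UF.W1

/-!
The new weights are admissible.
-/

set_option autoImplicit false

namespace Pool.Agent.Y892.UF

open Finset Filter Pool.Agent.H38R2.CG Pool.Agent.H38R2.CG2
open scoped Classical

variable {z X : ℕ} {P : Finset ℕ} {δ : ℝ} {C0 : ℕ} {ρ : ℕ → ℝ} {R : Finset ℕ} {L : ℝ}

theorem lft_ne {d : ℕ} (h : lft R L ρ d ≠ 0) :
    Squarefree d ∧ ∃ p ∈ R, p ∣ d ∧ ρ (d / p) ≠ 0 := by
  unfold lft at h
  split_ifs at h with h1
  · refine ⟨h1, ?_⟩
    by_contra hcon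
    push Not at hcon
    apply h
    rw [sum_eq_zero, zero_div]
    intro p hp
    rw [mem_filter] at hp
    exact hcon p hp.1 hp.2
  · exact absurd rfl h

theorem card_div_log {d : ℕ} (hd : 1 ≤ d) :
    (d.primeFactors.card : ℝ) * Real.log 2 ≤ Real.log d := by
  have h1 : 2 ^ d.primeFactors.card ≤ d := by
    calc 2 ^ d.primeFactors.card = ∏ _p ∈ d.primeFactors, 2 := by rw [prod_const]
      _ ≤ ∏ p ∈ d.primeFactors, p := prod_le_prod' (fun p hp =>
          (Nat.prime_of_mem_primeFactors hp).two_le)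
      _ ≤ d := Nat.le_of_dvd hd (Nat.prod_primeFactors_dvd d)
  have h2 : ((2 ^ d.primeFactors.card : ℕ) : ℝ) ≤ d := by exact_mod_cast h1
  have h3 := Real.log_le_log (by positivity) h2
  push_cast at h3
  rwa [Real.log_pow] at h3

theorem AA_lft_bd (hX : 1 ≤ X) (hδ : 2 * δ ≤ 1) (hδ0 : 0 < δ) (hC : 1 ≤ C0)
    (h : SWt z X P δ C0 ρ) (hL : 0 < L) (hG : 0 ≤ GG X ρ)
    (hR : ∀ p ∈ R, p.Prime ∧ (p : ℝ) ≤ (X : ℝ) ^ δ) (hR2 : ∀ p ∈ R, 2 * C0 ≤ p)
    (hS : 1 ≤ ∑ p ∈ R, 1 / (p : ℝ)) {g : ℕ} (hg : Squarefree g) :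
    |AA X (lft R L ρ) g| ≤
      ((C0 * (6 + 2 * C0) : ℕ) : ℝ) ^ g.primeFactors.card * GG X (lft R L ρ) / g := by
  obtain ⟨S, hSd⟩ : ∃ S, S = ∑ p ∈ R, 1 / (p : ℝ) := ⟨_, rfl⟩
  have hgl := (GG_lft hX hδ hδ0 h hL hG hR hR2).1
  rw [← hSd] at hS hgl
  have hGl : 0 ≤ GG X (lft R L ρ) := le_trans (by positivity) hgl
  have hC1 : (1 : ℝ) ≤ C0 := by exact_mod_cast hC
  have hg0 : (0 : ℝ) < g := by exact_mod_cast (Nat.pos_of_ne_zero hg.ne_zero)
  rcases Nat.eq_zero_or_pos g.primeFactors.card with h0 | h0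
  · have hg1 : g = 1 := by
      rw [card_eq_zero, Nat.primeFactors_eq_empty] at h0
      rcases h0 with h0 | h0
      · exact absurd h0 hg.ne_zero
      · exact h0
    rw [h0, pow_zero, one_mul, hg1, ← GG_eq, Nat.cast_one, div_one, abs_of_nonneg hGl]
  obtain ⟨w, hw⟩ : ∃ w, w = g.primeFactors.card := ⟨_, rfl⟩
  rw [← hw] at h0 ⊢
  have hw1 : (1 : ℝ) ≤ w := by exact_mod_cast h0
  -- one prime
  have key : ∀ p ∈ R, |1 / (p : ℝ) * (AA X ρ (if p ∣ g then g / p else g) -
      AA X ρ (p * (if p ∣ g then g / p else g)))| ≤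
      (C0 : ℝ) ^ w * GG X ρ / g * (1 / p * (1 + C0) + (if p ∣ g then 2 else 0)) := by
    intro p hp
    obtain ⟨hpp, -⟩ := hR p hp
    have hp0 : (0 : ℝ) < p := by exact_mod_cast hpp.pos
    have hp1 : (1 : ℝ) ≤ p := by exact_mod_cast hpp.one_lt.le
    rw [abs_mul, abs_of_pos (by positivity : (0 : ℝ) < 1 / p)]
    by_cases hpg : p ∣ g
    · rw [if_pos hpg, if_pos hpg, Nat.mul_div_cancel' hpg]
      have hq : Squarefree (g / p) := hg.squarefree_of_dvd (Nat.div_dvd_of_dvd hpg)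
      have h1 := AA_bd h hq
      have h2 := AA_bd h hg
      have hcard : (g / p).primeFactors.card = w - 1 := by
        obtain ⟨k, hk⟩ := hpg
        have hk2 : g / p = k := by rw [hk, Nat.mul_div_cancel_left _ hpp.pos]
        have hpk : ¬ p ∣ k := by
          intro h6
          have h7 : p * p ∣ g := by rw [hk]; exact Nat.mul_dvd_mul_left p h6
          exact hpp.one_lt.ne' (Nat.isUnit_iff.1 (hg p h7))
        have hk0 : k ≠ 0 := by
          rintro rfl
          exact hpk (dvd_zero _)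
        rw [hk2, hw, hk, Nat.primeFactors_mul hpp.ne_zero hk0, hpp.primeFactors,
          card_union_of_disjoint, card_singleton]
        · omega
        · rw [disjoint_singleton_left]
          intro hm
          exact hpk (Nat.dvd_of_mem_primeFactors hm)
      rw [← hw] at h2
      rw [hcard] at h1
      have h3 : ((g / p : ℕ) : ℝ) = g / p := Nat.cast_div hpg hp0.ne'
      rw [h3] at h1
      have h4 : (C0 : ℝ) ^ (w - 1) ≤ (C0 : ℝ) ^ w := pow_le_pow_right₀ hC1 (by omega)
      have h5 : |AA X ρ (g / p) - AA X ρ g| ≤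
          (C0 : ℝ) ^ (w - 1) * GG X ρ / (g / p) + (C0 : ℝ) ^ w * GG X ρ / g :=
        (abs_sub _ _).trans (add_le_add h1 h2)
      calc 1 / (p : ℝ) * |AA X ρ (g / p) - AA X ρ g|
          ≤ 1 / (p : ℝ) * ((C0 : ℝ) ^ (w - 1) * GG X ρ / (g / p) + (C0 : ℝ) ^ w * GG X ρ / g) := by
            gcongr
        _ = (C0 : ℝ) ^ (w - 1) * GG X ρ / g + 1 / p * ((C0 : ℝ) ^ w * GG X ρ / g) := by
            field_simp
        _ ≤ (C0 : ℝ) ^ w * GG X ρ / g + 1 / p * ((C0 : ℝ) ^ w * GG X ρ / g) := by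
            gcongr
        _ ≤ (C0 : ℝ) ^ w * GG X ρ / g * (1 / p * (1 + C0) + 2) := by
            have h6 : 0 ≤ (C0 : ℝ) ^ w * GG X ρ / g := by positivity
            have h7 : 0 < 1 / (p : ℝ) := by positivity
            have h8 : 0 ≤ (C0 : ℝ) ^ w * GG X ρ / g * (1 / (p : ℝ) * C0) := by positivity
            nlinarith
    · rw [if_neg hpg, if_neg hpg, add_zero]
      have hcop : Nat.Coprime p g := (Nat.Prime.coprime_iff_not_dvd hpp).2 hpg
      have hq : Squarefree (p * g) := (Nat.squarefree_mul hcop).2 ⟨hpp.squarefree, hg⟩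
      have h1 := AA_bd h hg
      have h2 := AA_bd h hq
      have hcard : (p * g).primeFactors.card = w + 1 := by
        rw [Nat.primeFactors_mul hpp.ne_zero hg.ne_zero, hpp.primeFactors,
          card_union_of_disjoint, card_singleton, hw]
        · omega
        · rw [disjoint_singleton_left]
          intro hm
          exact hpg (Nat.dvd_of_mem_primeFactors hm)
      rw [hcard] at h2
      rw [← hw] at h1
      push_cast at h2
      calc 1 / (p : ℝ) * |AA X ρ g - AA X ρ (p * g)|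
          ≤ 1 / (p : ℝ) * ((C0 : ℝ) ^ w * GG X ρ / g + (C0 : ℝ) ^ (w + 1) * GG X ρ / (p * g)) := by
            gcongr
            exact (abs_sub _ _).trans (add_le_add h1 h2)
        _ = (C0 : ℝ) ^ w * GG X ρ / g * (1 / p * (1 + C0 / p)) := by
            rw [pow_succ]
            field_simp
        _ ≤ (C0 : ℝ) ^ w * GG X ρ / g * (1 / p * (1 + C0)) := by
            gcongr
            rw [div_le_iff₀ hp0]
            nlinarith
  rw [AA_lft hX hδ hδ0 h hR hg, abs_div, abs_of_pos hL]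
  have h2 : |∑ p ∈ R, 1 / (p : ℝ) * (AA X ρ (if p ∣ g then g / p else g) -
      AA X ρ (p * (if p ∣ g then g / p else g)))| ≤
      (C0 : ℝ) ^ w * GG X ρ / g * (S * (1 + C0) + 2 * w) := by
    refine (abs_sum_le_sum_abs _ _).trans ((sum_le_sum key).trans ?_)
    rw [← mul_sum]
    refine mul_le_mul_of_nonneg_left ?_ (by positivity)
    rw [sum_add_distrib, ← sum_mul, ← hSd]
    gcongr
    rw [← sum_filter, sum_const, nsmul_eq_mul, mul_comm]
    gcongr
    rw [hw]
    apply card_le_card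
    intro p hp
    rw [mem_filter] at hp
    rw [Nat.mem_primeFactors]
    exact ⟨(hR p hp.1).1, hp.2, hg.ne_zero⟩
  have h3 : S * (1 + C0) + 2 * w ≤ S / 2 * (6 + 2 * (C0 : ℝ)) ^ w := by
    have h4 : 1 + (w : ℝ) * (5 + 2 * C0) ≤ (1 + (5 + 2 * (C0 : ℝ))) ^ w :=
      one_add_mul_le_pow (by linarith) w
    have h5 : (1 + (5 + 2 * (C0 : ℝ))) = 6 + 2 * C0 := by ring
    rw [h5] at h4
    calc S * (1 + C0) + 2 * w ≤ S * (1 + C0) + 2 * w * S := by nlinarith
      _ = S / 2 * (2 + 2 * C0 + 4 * w) := by ring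
      _ ≤ S / 2 * (1 + (w : ℝ) * (5 + 2 * C0)) := by
          have : 2 + 2 * (C0 : ℝ) + 4 * w ≤ 1 + (w : ℝ) * (5 + 2 * C0) := by nlinarith
          gcongr
      _ ≤ _ := by gcongr
  calc |∑ p ∈ R, 1 / (p : ℝ) * (AA X ρ (if p ∣ g then g / p else g) -
        AA X ρ (p * (if p ∣ g then g / p else g)))| / L
      ≤ (C0 : ℝ) ^ w * GG X ρ / g * (S / 2 * (6 + 2 * (C0 : ℝ)) ^ w) / L := by
        gcongr
        refine h2.trans ?_
        gcongr
    _ = ((C0 * (6 + 2 * C0) : ℕ) : ℝ) ^ w * (S * GG X ρ / 2 / L) / g := by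
        push_cast
        rw [mul_pow]
        ring
    _ ≤ ((C0 * (6 + 2 * C0) : ℕ) : ℝ) ^ w * GG X (lft R L ρ) / g := by
        gcongr

theorem swt_lft (hX : 8 ≤ X) (hδ : 4 * δ ≤ 1) (hδ0 : 0 < δ) (hC : 1 ≤ C0) (hz : 2 ≤ z)
    (h : SWt z X P δ C0 ρ) (hP : ∀ q ∈ P, q.Prime)
    (hR : ∀ p ∈ R, p.Prime ∧ (p : ℝ) ≤ (X : ℝ) ^ δ) (hR2 : ∀ p ∈ R, 2 * C0 ≤ p)
    (hRz : ∀ p ∈ R, z < p) (hRP : ∀ p ∈ R, p ∉ P) (hS : 1 ≤ ∑ p ∈ R, 1 / (p : ℝ)) :
    SWt z X P (2 * δ) (C0 * (6 + 2 * C0)) (lft R (Real.log X) ρ) := by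
  have hX1 : 1 ≤ X := by omega
  have hXr : (8 : ℝ) ≤ X := by exact_mod_cast hX
  have hlog : 2 < Real.log X := by
    have h1 : Real.log 8 ≤ Real.log X := Real.log_le_log (by norm_num) hXr
    have h2 : Real.log 8 = 3 * Real.log 2 := by
      rw [show (8 : ℝ) = 2 ^ 3 by norm_num, Real.log_pow]
      norm_num
    have := Real.log_two_gt_d9
    linarith
  have hG : 0 ≤ GG X ρ := le_trans (by positivity) h.low
  have hL0 : 0 < Real.log X := by linarith
  have hgl := (GG_lft hX1 (by linarith) hδ0 h hL0 hG hR hR2).1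
  have hsup : ∀ d, lft R (Real.log X) ρ d ≠ 0 → 1 ≤ d ∧ (d : ℝ) ≤ (X : ℝ) ^ (2 * δ) ∧
      Squarefree d ∧ d.Coprime (Qz z) ∧ ∀ p ∈ P, ¬ p ∣ d := by
    intro d hd
    obtain ⟨h1, p, hp, hpd, hρ⟩ := lft_ne hd
    obtain ⟨s1, s2, s3, s4, s5⟩ := h.supp _ hρ
    obtain ⟨hpp, hpX⟩ := hR p hp
    obtain ⟨e, rfl⟩ := hpd
    rw [Nat.mul_div_cancel_left _ hpp.pos] at s1 s2 s3 s4 s5
    refine ⟨Nat.mul_pos hpp.pos s1, ?_, h1, ?_, ?_⟩
    · push_cast
      calc (p : ℝ) * e ≤ (X : ℝ) ^ δ * (X : ℝ) ^ δ := by gcongr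
        _ = (X : ℝ) ^ (2 * δ) := by rw [← Real.rpow_add (by linarith)]; congr 1; ring
    · refine Nat.Coprime.mul_left ?_ s4
      rw [Nat.Prime.coprime_iff_not_dvd hpp]
      unfold Qz
      intro hd2
      have hzp := hRz p hp
      rcases (Nat.Prime.dvd_mul hpp).1 hd2 with h5 | h5
      · have h6 : p ∣ 2 ^ 4 := by norm_num; exact h5
        have h7 := (Nat.prime_dvd_prime_iff_eq hpp Nat.prime_two).1 (hpp.dvd_of_dvd_pow h6)
        omega
      · rw [Prime.dvd_finsetProd_iff hpp.prime] at h5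
        obtain ⟨l, hl, h6⟩ := h5
        rw [mem_filter, mem_Icc] at hl
        have h7 := (Nat.prime_dvd_prime_iff_eq hpp hl.2).1 (hpp.dvd_of_dvd_pow h6)
        omega
    · intro q hq hqd
      rcases (Nat.Prime.dvd_mul (hP q hq)).1 hqd with h5 | h5
      · have h6 := (Nat.prime_dvd_prime_iff_eq (hP q hq) hpp).1 h5
        rw [h6] at hq
        exact hRP p hp hq
      · exact s5 q hq h5
  refine ⟨hsup, ?_, ?_, ?_, ?_⟩
  · intro d
    by_cases h0 : lft R (Real.log X) ρ d = 0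
    · rw [h0, abs_zero]
      exact zero_le_one
    · obtain ⟨h1, h2, h3, -, -⟩ := hsup d h0
      unfold lft
      rw [if_pos h3, abs_div, abs_of_pos hL0, div_le_one hL0]
      have h4 : |∑ p ∈ R.filter (fun p => p ∣ d), ρ (d / p)| ≤ d.primeFactors.card := by
        refine (abs_sum_le_sum_abs _ _).trans ?_
        refine (sum_le_sum (fun p _ => h.bd (d / p))).trans ?_
        rw [sum_const, nsmul_eq_mul, mul_one]
        have : (R.filter (fun p => p ∣ d)).card ≤ d.primeFactors.card := by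
          apply card_le_card
          intro p hp
          rw [mem_filter] at hp
          rw [Nat.mem_primeFactors]
          exact ⟨(hR p hp.1).1, hp.2, h3.ne_zero⟩
        exact_mod_cast this
      refine h4.trans ?_
      have h5 := card_div_log h1
      have hd0 : (0 : ℝ) < d := by exact_mod_cast h1
      have h6 : Real.log d ≤ 2 * δ * Real.log X := by
        have := Real.log_le_log hd0 h2
        rwa [Real.log_rpow (by linarith)] at this
      have h7 := Real.log_two_gt_d9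
      have h8 : (0 : ℝ) ≤ d.primeFactors.card := Nat.cast_nonneg _
      nlinarith
  · have h1 := h.low
    have h2 : ((Real.log X) ^ (C0 * (6 + 2 * C0)))⁻¹ ≤
        ((Real.log X) ^ C0)⁻¹ / 2 / Real.log X := by
      rw [div_div, div_eq_mul_inv, ← mul_inv]
      apply inv_anti₀ (by positivity)
      calc (Real.log X) ^ C0 * (2 * Real.log X) ≤ (Real.log X) ^ C0 * (Real.log X * Real.log X) := by
            gcongr
        _ = (Real.log X) ^ (C0 + 2) := by ring
        _ ≤ (Real.log X) ^ (C0 * (6 + 2 * C0)) := by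
            apply pow_le_pow_right₀ (by linarith)
            nlinarith
    refine h2.trans (le_trans ?_ hgl)
    gcongr
    have : ((Real.log X) ^ C0)⁻¹ ≤ 1 * GG X ρ := by linarith
    refine this.trans ?_
    gcongr
  · intro g hg
    exact AA_lft_bd hX1 (by linarith) hδ0 hC h hL0 hG hR hR2 hS hg
  · intro x hx
    have e1 := sum_lft (L := Real.log X) hX1 (by linarith) hδ0 h hR
      (fun d => ∏ p ∈ d.primeFactors, x p)
    rw [e1]
    apply div_nonneg _ hL0.le
    apply sum_nonneg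
    intro p hp
    obtain ⟨hpp, -⟩ := hR p hp
    have e2 : ∑ e ∈ (Icc 1 X).filter (fun e => ¬ p ∣ e), ρ e * ∏ q ∈ (p * e).primeFactors, x q =
        x p * ∑ e ∈ Icc 1 X, ρ e * ∏ q ∈ e.primeFactors, (if q = p then 0 else x q) := by
      rw [mul_sum, sum_filter]
      apply sum_congr rfl
      intro e he
      rw [mem_Icc] at he
      by_cases hpe : p ∣ e
      · rw [if_neg (not_not.2 hpe)]
        have e4 : ∏ q ∈ e.primeFactors, (if q = p then 0 else x q) = 0 :=
          prod_eq_zero (i := p) (Nat.mem_primeFactors.2 ⟨hpp, hpe, by omega⟩) (if_pos rfl)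
        rw [e4]
        ring
      · rw [if_pos hpe, Nat.primeFactors_mul hpp.ne_zero (by omega), hpp.primeFactors,
          prod_union, prod_singleton]
        · have e3 : ∏ q ∈ e.primeFactors, (if q = p then 0 else x q) =
              ∏ q ∈ e.primeFactors, x q := by
            apply prod_congr rfl
            intro q hq
            rw [if_neg]
            rintro rfl
            exact hpe (Nat.dvd_of_mem_primeFactors hq)
          rw [e3]
          ring
        · rw [disjoint_singleton_left]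
          intro hm
          exact hpe (Nat.dvd_of_mem_primeFactors hm)
    rw [e2]
    apply mul_nonneg (hx p).1
    apply h.pos
    intro q
    split_ifs
    · exact ⟨le_rfl, zero_le_one⟩
    · exact hx q

/-- the weight of `p q` -/
theorem wt_pq (hX : 1 ≤ X) (h : SWt z X P δ C0 ρ) (h1 : ρ 1 = 1)
    (hR : ∀ p ∈ R, p.Prime ∧ (p : ℝ) ≤ (X : ℝ) ^ δ) {p q : ℕ} (hp : p ∈ R) (hq : q.Prime)
    (hqX : (X : ℝ) ^ δ < q) : wt (lft R L ρ) (p * q) = 1 / L := by
  obtain ⟨hpp, hpX⟩ := hR p hp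
  have hqR : q ∉ R := fun hh => by
    have := (hR q hh).2
    linarith
  have hpq : p ≠ q := by
    rintro rfl
    linarith
  have hcop : Nat.Coprime p q := (Nat.coprime_primes hpp hq).2 hpq
  have hρq : ρ q = 0 := by
    by_contra h0
    have := (h.supp q h0).2.1
    linarith
  have hdiv : (p * q).divisors = {1, p, q, p * q} := by
    ext d
    rw [Nat.mem_divisors]
    simp only [mem_insert, mem_singleton]
    constructor
    · rintro ⟨hd, -⟩
      rw [Nat.dvd_mul] at hd
      obtain ⟨d1, d2, h3, h4, rfl⟩ := hd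
      rcases (Nat.dvd_prime hpp).1 h3 with rfl | rfl <;>
        rcases (Nat.dvd_prime hq).1 h4 with rfl | rfl <;> simp
    · have h0 : p * q ≠ 0 := Nat.mul_ne_zero hpp.ne_zero hq.ne_zero
      rintro (rfl | rfl | rfl | rfl)
      · exact ⟨one_dvd _, h0⟩
      · exact ⟨dvd_mul_right _ _, h0⟩
      · exact ⟨dvd_mul_left _ _, h0⟩
      · exact ⟨dvd_rfl, h0⟩
  have f1 : lft R L ρ 1 = 0 := by
    unfold lft
    rw [if_pos squarefree_one, sum_eq_zero, zero_div]
    intro s hs
    rw [mem_filter] at hs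
    exact absurd (Nat.dvd_one.1 hs.2) (hR s hs.1).1.one_lt.ne'
  have f2 : lft R L ρ p = 1 / L := by
    unfold lft
    have f5 : ∑ p_1 ∈ R.filter (fun p_1 => p_1 ∣ p), ρ (p / p_1) = ρ (p / p) := by
      have hmem : p ∈ R.filter (fun p_1 => p_1 ∣ p) := by
        rw [mem_filter]
        exact ⟨hp, dvd_rfl⟩
      refine sum_eq_single_of_mem p hmem ?_
      intro s hs hne
      rw [mem_filter] at hs
      exact absurd ((Nat.prime_dvd_prime_iff_eq (hR s hs.1).1 hpp).1 hs.2) hne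
    rw [if_pos hpp.squarefree, f5, Nat.div_self hpp.pos, h1]
  have f3 : lft R L ρ q = 0 := by
    unfold lft
    rw [if_pos hq.squarefree, sum_eq_zero, zero_div]
    intro s hs
    rw [mem_filter] at hs
    have := (Nat.prime_dvd_prime_iff_eq (hR s hs.1).1 hq).1 hs.2
    rw [this] at hs
    exact absurd hs.1 hqR
  have f4 : lft R L ρ (p * q) = 0 := by
    unfold lft
    rw [if_pos ((Nat.squarefree_mul hcop).2 ⟨hpp.squarefree, hq.squarefree⟩), sum_eq_zero, zero_div]
    intro s hs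
    rw [mem_filter] at hs
    have hsp := (hR s hs.1).1
    rcases (Nat.Prime.dvd_mul hsp).1 hs.2 with h3 | h3
    · have := (Nat.prime_dvd_prime_iff_eq hsp hpp).1 h3
      rw [this, Nat.mul_div_cancel_left _ hpp.pos]
      exact hρq
    · have := (Nat.prime_dvd_prime_iff_eq hsp hq).1 h3
      rw [this] at hs
      exact absurd hs.1 hqR
  unfold wt
  rw [hdiv, sum_insert, sum_insert, sum_insert, sum_singleton, f1, f2, f3, f4]
  · ring
  · rw [mem_singleton]
    intro hh
    have : q * 1 < p * q := by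
      rw [mul_comm p q]
      exact Nat.mul_lt_mul_of_pos_left hpp.one_lt hq.pos
    omega
  · rw [mem_insert, mem_singleton]
    rintro (hh | hh)
    · exact hpq hh
    · have : p * 1 < p * q := Nat.mul_lt_mul_of_pos_left hq.one_lt hpp.pos
      omega
  · simp only [mem_insert, mem_singleton]
    rintro (hh | hh | hh)
    · exact hpp.one_lt.ne hh
    · exact hq.one_lt.ne hh
    · have : 1 * 1 < p * q := Nat.mul_lt_mul'' hpp.one_lt hq.one_lt
      omega

end Pool.Agent.Y892.UF
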