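import Pool.Agent.Y892.UF.W3
import Pool.Agent.Y892.UF.N1

/-!
Upper bound for the number of exceptional `p q`.
-/

set_option autoImplicit false

namespace Pool.Agent.Y892.UF

open Finset Filter Pool.Agent.H38R2.CG Pool.Agent.H38R2.CG2 Pool.Agent.H38R2.CG3
open Pool.Agent.H38R2.CG.FINh
open scoped Classical

theorem sum_un_le (s t : Finset ℕ) (f : ℕ → ℝ) (hf : ∀ p, 0 ≤ f p) :
    ∑ p ∈ s ∪ t, f p ≤ ∑ p ∈ s, f p + ∑ p ∈ t, f p := by
  rw [← sum_union_inter]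
  have : 0 ≤ ∑ p ∈ s ∩ t, f p := sum_nonneg (fun p _ => hf p)
  linarith

/-- products of two primes `≡ 3 mod 4` -/
def Semi (d : ℕ) : Prop :=
  ∃ p q : ℕ, p.Prime ∧ q.Prime ∧ p < q ∧ p % 4 = 3 ∧ q % 4 = 3 ∧ d = p * q

/-- lower end of the window -/
noncomputable def uu (a : ℝ) (Z : ℕ) : ℝ := (Real.log Z / 2) ^ a / 4

/-- primes in the window -/
noncomputable def WZ (a : ℝ) (Z : ℕ) : Finset ℕ :=
  (Finset.Ioc ⌊uu a Z⌋₊ ⌊(uu a Z) ^ 2⌋₊).filter Nat.Prime

theorem PA_sub (a : ℝ) (ha : 2 < a) : ∃ Z1 : ℕ, ∀ Z ≥ Z1, 1 ≤ uu a Z ∧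
    ∀ X : ℕ, √(Z : ℝ) ≤ X → X ≤ Z → PA a X ⊆ WZ a Z := by
  have ht : Tendsto (fun Z : ℕ => (Real.log (Z : ℝ)) ^ a) atTop atTop :=
    (tendsto_rpow_atTop (by linarith)).comp
      (Real.tendsto_log_atTop.comp tendsto_natCast_atTop_atTop)
  obtain ⟨Z1, hZ1⟩ := eventually_atTop.1 (ht.eventually_ge_atTop (8 * ((2 : ℝ) ^ a * 2 ^ a)))
  refine ⟨max Z1 3, fun Z hZ => ?_⟩
  have h1 := hZ1 Z ((le_max_left _ _).trans hZ)
  have hZ3 : (3 : ℝ) ≤ Z := by exact_mod_cast (le_max_right _ _).trans hZ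
  have hl : 0 < Real.log Z := Real.log_pos (by linarith)
  have h2 : (1 : ℝ) ≤ 2 ^ a := Real.one_le_rpow (by norm_num) (by linarith)
  have h2' : (0 : ℝ) < 2 ^ a := by linarith
  have hu : uu a Z = (Real.log Z) ^ a / 2 ^ a / 4 := by
    unfold uu
    rw [Real.div_rpow hl.le (by norm_num)]
  have hu1 : 1 ≤ uu a Z := by
    rw [hu, le_div_iff₀ (by norm_num), le_div_iff₀ h2']
    nlinarith
  have hu2 : (Real.log Z) ^ a / 2 ≤ (uu a Z) ^ 2 := by
    have e : (uu a Z) ^ 2 = (Real.log Z) ^ a * ((Real.log Z) ^ a / ((2 : ℝ) ^ a * 2 ^ a) / 16) := by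
      rw [hu]
      field_simp
      ring
    have h3 : 1 / 2 ≤ (Real.log Z) ^ a / ((2 : ℝ) ^ a * 2 ^ a) / 16 := by
      rw [le_div_iff₀ (by norm_num), le_div_iff₀ (by positivity)]
      linarith
    rw [e, div_eq_mul_one_div]
    exact mul_le_mul_of_nonneg_left h3 (by positivity)
  refine ⟨hu1, fun X hX1 hX2 p hp => ?_⟩
  simp only [PA, PP, mem_filter, mem_Ioc] at hp
  simp only [WZ, mem_filter, mem_Ioc]
  have hs : 1 < √(Z : ℝ) := by
    rw [Real.lt_sqrt (by norm_num)]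
    linarith
  have hX0 : (1 : ℝ) < X := by linarith
  have hlX : Real.log Z / 2 ≤ Real.log X := by
    rw [← Real.log_sqrt (by linarith)]
    exact Real.log_le_log (by linarith) hX1
  have hlX2 : Real.log X ≤ Real.log Z := by
    apply Real.log_le_log (by linarith)
    exact_mod_cast hX2
  have h5 : uu a Z ≤ (Real.log X) ^ a / 4 := by
    unfold uu
    have := Real.rpow_le_rpow (by positivity) hlX (by linarith : (0 : ℝ) ≤ a)
    linarith
  have h6 : (Real.log X) ^ a ≤ (Real.log Z) ^ a := by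
    have hlX0 : 0 ≤ Real.log X := by linarith
    exact Real.rpow_le_rpow hlX0 hlX2 (by linarith)
  refine ⟨⟨?_, ?_⟩, hp.2⟩
  · refine lt_of_le_of_lt ?_ hp.1.1
    unfold yA
    exact Nat.floor_le_floor h5
  · apply Nat.le_floor
    refine le_trans ?_ hu2
    have h7 : (p : ℝ) ≤ 2 * (yA a X : ℝ) := by exact_mod_cast hp.1.2
    have h8 : (yA a X : ℝ) ≤ (Real.log X) ^ a / 4 := by
      unfold yA
      apply Nat.floor_le
      have : 0 ≤ Real.log X := by linarith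
      positivity
    linarith

theorem WZ_sum {L : ℝ} (hCH : ∀ x : ℝ, 1 ≤ x →
    ∑ p ∈ (Finset.Ioc ⌊√x⌋₊ ⌊x⌋₊).filter Nat.Prime, (1 : ℝ) / p ≤ L) {a : ℝ} {Z : ℕ}
    (hu : 1 ≤ uu a Z) : ∑ p ∈ WZ a Z, 1 / (p : ℝ) ≤ L := by
  have h := hCH ((uu a Z) ^ 2) (one_le_pow₀ hu)
  rw [Real.sqrt_sq (by linarith)] at h
  exact h

/-- numbers `p q` with `p` in a given set -/
theorem cnt_T {L : ℝ} (hL0 : 0 < L) (hCH3 : ∀ N : ℕ, 2 ≤ N →
    (((Finset.Icc 2 N).filter Nat.Prime).card : ℝ) ≤ L * N / Real.log N) {Z : ℕ} (hZ : 16 ≤ Z)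
    (T : Finset ℕ) :
    (((Finset.Ioc 0 Z).filter (fun D => ∃ p q : ℕ, p ∈ T ∧ p.Prime ∧ q.Prime ∧ p < q ∧
      D = p * q)).card : ℝ) ≤ 4 * L * Z / Real.log Z * ∑ p ∈ T.filter Nat.Prime, 1 / (p : ℝ) := by
  have hZr : (16 : ℝ) ≤ Z := by exact_mod_cast hZ
  have hl : 0 < Real.log Z := Real.log_pos (by linarith)
  set T' := (T.filter Nat.Prime).filter (fun p => p * p ≤ Z) with hT'
  have hsub : (Finset.Ioc 0 Z).filter (fun D => ∃ p q : ℕ, p ∈ T ∧ p.Prime ∧ q.Prime ∧ p < q ∧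
      D = p * q) ⊆ T'.biUnion (fun p => ((Finset.Icc 2 (Z / p)).filter Nat.Prime).image
        (fun q => p * q)) := by
    intro D hD
    rw [mem_filter, mem_Ioc] at hD
    obtain ⟨⟨-, hDZ⟩, p, q, hpT, hp, hq, hpq, rfl⟩ := hD
    rw [mem_biUnion]
    refine ⟨p, ?_, ?_⟩
    · rw [hT', mem_filter, mem_filter]
      refine ⟨⟨hpT, hp⟩, le_trans ?_ hDZ⟩
      exact Nat.mul_le_mul_left p hpq.le
    · rw [mem_image]
      refine ⟨q, ?_, rfl⟩
      rw [mem_filter, mem_Icc]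
      refine ⟨⟨hq.two_le, ?_⟩, hq⟩
      rw [Nat.le_div_iff_mul_le hp.pos, mul_comm]
      exact hDZ
  have h1 : (((Finset.Ioc 0 Z).filter (fun D => ∃ p q : ℕ, p ∈ T ∧ p.Prime ∧ q.Prime ∧ p < q ∧
      D = p * q)).card : ℝ) ≤ ∑ p ∈ T', (((Finset.Icc 2 (Z / p)).filter Nat.Prime).card : ℝ) := by
    have h2 := (card_le_card hsub).trans card_biUnion_le
    have h3 : ∑ p ∈ T', (((Finset.Icc 2 (Z / p)).filter Nat.Prime).image
        (fun q => p * q)).card ≤ ∑ p ∈ T', ((Finset.Icc 2 (Z / p)).filter Nat.Prime).card :=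
      sum_le_sum (fun p _ => card_image_le)
    exact_mod_cast h2.trans h3
  refine h1.trans ?_
  rw [mul_sum]
  have h4 : ∀ p ∈ T', (((Finset.Icc 2 (Z / p)).filter Nat.Prime).card : ℝ) ≤
      4 * L * Z / Real.log Z * (1 / (p : ℝ)) := by
    intro p hp
    rw [hT', mem_filter, mem_filter] at hp
    obtain ⟨⟨hpT, hpp⟩, hppZ⟩ := hp
    have hp0 : (0 : ℝ) < p := by exact_mod_cast hpp.pos
    have hN : p ≤ Z / p := by
      rw [Nat.le_div_iff_mul_le hpp.pos]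
      exact hppZ
    have hN2 : 2 ≤ Z / p := hpp.two_le.trans hN
    obtain ⟨N, hNd⟩ : ∃ N, N = Z / p := ⟨_, rfl⟩
    rw [← hNd] at hN hN2 ⊢
    have hNr : (2 : ℝ) ≤ N := by exact_mod_cast hN2
    have hNle : (N : ℝ) ≤ Z / p := by
      rw [hNd]
      exact Nat.cast_div_le
    have hlt : (Z : ℝ) < 2 * N * N := by
      have h5 : Z < (N + 1) * p := by
        rw [hNd]
        have h8 := Nat.div_add_mod Z p
        have h9 := Nat.mod_lt Z hpp.pos
        nlinarith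
      have h6 : (Z : ℝ) < (N + 1) * p := by exact_mod_cast h5
      have h7 : (p : ℝ) ≤ N := by exact_mod_cast hN
      nlinarith
    have hlog : Real.log Z / 4 ≤ Real.log N := by
      have h5 : (Z : ℝ) ≤ N ^ 4 := by nlinarith [mul_pos (by linarith : (0 : ℝ) < N) (by linarith : (0 : ℝ) < N)]
      have h6 := Real.log_le_log (by linarith) h5
      rw [Real.log_pow] at h6
      push_cast at h6
      linarith
    calc (((Finset.Icc 2 N).filter Nat.Prime).card : ℝ) ≤ L * N / Real.log N := hCH3 N hN2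
      _ ≤ L * (Z / p) / (Real.log Z / 4) := by
          apply div_le_div₀ (by positivity) _ (by positivity) hlog
          gcongr
      _ = 4 * L * Z / Real.log Z * (1 / (p : ℝ)) := by
          field_simp
  refine (sum_le_sum h4).trans ?_
  apply sum_le_sum_of_subset_of_nonneg
  · rw [hT']
    exact filter_subset _ _
  · intro p _ _
    positivity

/-- the sum of reciprocals is large -/
theorem SR_ge (a : ℝ) (ha : 2 < a) (z : ℕ) : ∃ X0 : ℕ, ∀ X ≥ X0, 1 ≤ SR a z X := by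
  obtain ⟨hcc0, hcc1⟩ := cc_bd ha
  have ht : Tendsto (fun X : ℕ => La ⌊(X : ℝ) ^ (cc a / 2)⌋₊) atTop atTop :=
    La_tendsto.comp (tendsto_nat_floor_atTop.comp
      ((tendsto_rpow_atTop (by linarith)).comp tendsto_natCast_atTop_atTop))
  obtain ⟨X0, hX0⟩ := eventually_atTop.1 (ht.eventually_ge_atTop ((z : ℝ) + 2))
  refine ⟨max X0 1, fun X hX => ?_⟩
  have h1 := hX0 X ((le_max_left _ _).trans hX)
  have hX1 : 1 ≤ X := (le_max_right _ _).trans hX
  have hXr : (1 : ℝ) ≤ X := by exact_mod_cast hX1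
  have hsub : P3 ⌊(X : ℝ) ^ (cc a / 2)⌋₊ ⊆ RR a z X ∪ ((Icc 1 z) ∪ PA a X) := by
    intro p hp
    rw [mem_P3] at hp
    rw [mem_union, mem_union]
    by_cases h2 : p ∈ PA a X
    · exact Or.inr (Or.inr h2)
    by_cases h3 : p ≤ z
    · exact Or.inr (Or.inl (mem_Icc.2 ⟨hp.2.1.one_lt.le, h3⟩))
    left
    have h4 : (p : ℝ) ≤ (X : ℝ) ^ (cc a / 2) := by
      have := Nat.floor_le (show 0 ≤ (X : ℝ) ^ (cc a / 2) by positivity)
      have h5 : (p : ℝ) ≤ (⌊(X : ℝ) ^ (cc a / 2)⌋₊ : ℝ) := by exact_mod_cast hp.1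
      linarith
    have h6 : (X : ℝ) ^ (cc a / 2) ≤ X := by
      calc (X : ℝ) ^ (cc a / 2) ≤ (X : ℝ) ^ (1 : ℝ) :=
            Real.rpow_le_rpow_of_exponent_le hXr (by linarith)
        _ = X := Real.rpow_one _
    have h7 : p ≤ X := by exact_mod_cast h4.trans h6
    simp only [RR, mem_filter, mem_Icc]
    exact ⟨⟨hp.2.1.one_lt.le, h7⟩, hp.2.1, hp.2.2, not_le.1 h3, h2, h4⟩
  have h8 : La ⌊(X : ℝ) ^ (cc a / 2)⌋₊ ≤ SR a z X + ((z : ℝ) + 1) := by
    have h9 : ∑ p ∈ Icc 1 z, 1 / (p : ℝ) ≤ z := by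
      calc ∑ p ∈ Icc 1 z, 1 / (p : ℝ) ≤ ∑ _p ∈ Icc 1 z, (1 : ℝ) := by
            apply sum_le_sum
            intro p hp
            rw [mem_Icc] at hp
            have : (1 : ℝ) ≤ p := by exact_mod_cast hp.1
            rw [div_le_one (by linarith)]
            exact this
        _ = z := by simp
    have h10 : ∑ p ∈ PA a X, 1 / (p : ℝ) ≤ 1 := by
      unfold PA PP
      obtain ⟨y, hy⟩ : ∃ y, y = yA a X := ⟨_, rfl⟩
      rw [← hy]
      calc ∑ p ∈ (Ioc y (2 * y)).filter Nat.Prime, 1 / (p : ℝ) ≤ ∑ p ∈ Ioc y (2 * y), 1 / (p : ℝ) :=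
            sum_le_sum_of_subset_of_nonneg (filter_subset _ _) (fun p _ _ => by positivity)
        _ ≤ ∑ _p ∈ Ioc y (2 * y), 1 / (y : ℝ) := by
            apply sum_le_sum
            intro p hp
            rw [mem_Ioc] at hp
            rcases Nat.eq_zero_or_pos y with h0 | h0
            · omega
            · have : (0 : ℝ) < y := by exact_mod_cast h0
              apply one_div_le_one_div_of_le this
              exact_mod_cast hp.1.le
        _ ≤ 1 := by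
            rw [sum_const, Nat.card_Ioc, nsmul_eq_mul]
            have : 2 * y - y = y := by omega
            rw [this]
            rcases Nat.eq_zero_or_pos y with h0 | h0
            · rw [h0]; simp
            · have : (0 : ℝ) < y := by exact_mod_cast h0
              rw [mul_one_div_cancel this.ne']
    calc La ⌊(X : ℝ) ^ (cc a / 2)⌋₊ ≤ ∑ p ∈ RR a z X ∪ ((Icc 1 z) ∪ PA a X), 1 / (p : ℝ) :=
          sum_le_sum_of_subset_of_nonneg hsub (fun p _ _ => by positivity)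
      _ ≤ ∑ p ∈ RR a z X, 1 / (p : ℝ) + ∑ p ∈ (Icc 1 z) ∪ PA a X, 1 / (p : ℝ) :=
          sum_un_le _ _ _ (fun p => by positivity)
      _ ≤ ∑ p ∈ RR a z X, 1 / (p : ℝ) + (∑ p ∈ Icc 1 z, 1 / (p : ℝ) + ∑ p ∈ PA a X, 1 / (p : ℝ)) := by
          gcongr
          exact sum_un_le _ _ _ (fun p => by positivity)
      _ ≤ SR a z X + ((z : ℝ) + 1) := by
          unfold SR
          linarith
  linarith

end Pool.Agent.Y892.UF
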