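import Pool.Agent.Y892.UF.W5

/-!
Lower bound for the number of `p q`, and the limit.
-/

set_option autoImplicit false

namespace Pool.Agent.Y892.UF

open Finset Filter Pool.Agent.H38R2.CG Pool.Agent.H38R2.CG2 Pool.Agent.H38R2.CG3
open Pool.Agent.H38R2.CG.FINh
open scoped Classical

/-- lower bound for the number of products -/
theorem lower : ∃ Z1 : ℕ, ∀ Z ≥ Z1,
    (1 / 16) * La ⌊(Z : ℝ) ^ ((1 : ℝ) / 2 ^ 2)⌋₊ * (Z / Real.log Z) ≤
      (((Finset.Ioc 0 Z).filter Semi).card : ℝ) := by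
  obtain ⟨x0, hx0⟩ := eventually_atTop.1 P3_lower
  have h1 := (isLittleO_log_rpow_atTop (by norm_num : (0 : ℝ) < 1 / 2 ^ 2)).bound
    (by norm_num : (0 : ℝ) < 1 / 64)
  have h2 : ∀ᶠ Z : ℕ in atTop, ‖Real.log (Z : ℝ)‖ ≤ 1 / 64 * ‖(Z : ℝ) ^ ((1 : ℝ) / 2 ^ 2)‖ :=
    tendsto_natCast_atTop_atTop.eventually h1
  obtain ⟨Z0, hZ0⟩ := eventually_atTop.1 h2
  refine ⟨max (max Z0 (2 * x0 + 256)) ((x0 + 2) ^ 2), fun Z hZ => ?_⟩
  have hZa : Z0 ≤ Z := (le_max_left _ _).trans ((le_max_left _ _).trans hZ)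
  have hZb : 2 * x0 + 256 ≤ Z := (le_max_right _ _).trans ((le_max_left _ _).trans hZ)
  have hZc : (x0 + 2) ^ 2 ≤ Z := (le_max_right _ _).trans hZ
  have hZ256 : (256 : ℝ) ≤ Z := by exact_mod_cast (by omega : 256 ≤ Z)
  have hlZ : 0 < Real.log Z := Real.log_pos (by linarith)
  obtain ⟨s, hs⟩ : ∃ s : ℝ, s = (Z : ℝ) ^ ((1 : ℝ) / 2 ^ 2) := ⟨_, rfl⟩
  have hs0 : 0 < s := by rw [hs]; positivity
  have hs4 : s ^ 4 = Z := by
    rw [hs, ← Real.rpow_natCast, ← Real.rpow_mul (by linarith)]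
    norm_num
  have hs2 : 4 ≤ s := by
    by_contra hcon
    push Not at hcon
    have : s ^ 4 < 4 ^ 4 := pow_lt_pow_left₀ hcon hs0.le (by norm_num)
    rw [hs4] at this
    norm_num at this
    linarith
  have hlogs : Real.log Z ≤ s / 64 := by
    have := hZ0 Z hZa
    rw [Real.norm_eq_abs, abs_of_pos hlZ, Real.norm_eq_abs, ← hs, abs_of_pos hs0] at this
    linarith
  rw [← hs]
  obtain ⟨w, hw⟩ : ∃ w, w = ⌊s⌋₊ := ⟨_, rfl⟩
  have hws : (w : ℝ) ≤ s := by rw [hw]; exact Nat.floor_le hs0.le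
  rw [← hw]
  -- the products
  have hsub : (P3 w).biUnion (fun p => (P3 (Z / p) \ P3 w).image (fun q => p * q)) ⊆
      (Finset.Ioc 0 Z).filter Semi := by
    intro D hD
    rw [mem_biUnion] at hD
    obtain ⟨p, hp, hD⟩ := hD
    rw [mem_image] at hD
    obtain ⟨q, hq, rfl⟩ := hD
    rw [Finset.mem_sdiff, mem_P3, mem_P3] at hq
    rw [mem_P3] at hp
    obtain ⟨⟨hq1, hq2, hq3⟩, hq4⟩ := hq
    obtain ⟨hp1, hp2, hp3⟩ := hp
    have hwq : w < q := by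
      by_contra hcon
      exact hq4 ⟨not_lt.1 hcon, hq2, hq3⟩
    rw [mem_filter, mem_Ioc]
    refine ⟨⟨Nat.mul_pos hp2.pos hq2.pos, ?_⟩, p, q, hp2, hq2, by omega, hp3, hq3, rfl⟩
    rw [Nat.le_div_iff_mul_le hp2.pos] at hq1
    rw [mul_comm]
    exact hq1
  have hdisj : ∀ p ∈ P3 w, ∀ p' ∈ P3 w, p ≠ p' → Disjoint
      ((P3 (Z / p) \ P3 w).image (fun q => p * q)) ((P3 (Z / p') \ P3 w).image (fun q => p' * q)) := by
    intro p hp p' hp' hne
    rw [Finset.disjoint_left]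
    intro D hD hD'
    rw [mem_image] at hD hD'
    obtain ⟨q, hq, rfl⟩ := hD
    obtain ⟨q', hq', he⟩ := hD'
    rw [Finset.mem_sdiff, mem_P3, mem_P3] at hq hq'
    rw [mem_P3] at hp hp'
    have hwq' : w < q' := by
      by_contra hcon
      exact hq'.2 ⟨not_lt.1 hcon, hq'.1.2.1, hq'.1.2.2⟩
    have h5 : p ∣ p' * q' := by
      rw [he]
      exact dvd_mul_right _ _
    rcases (Nat.Prime.dvd_mul hp.2.1).1 h5 with h6 | h6
    · exact hne ((Nat.prime_dvd_prime_iff_eq hp.2.1 hp'.2.1).1 h6)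
    · have := (Nat.prime_dvd_prime_iff_eq hp.2.1 hq'.1.2.1).1 h6
      omega
  have hcard : (((P3 w).biUnion (fun p => (P3 (Z / p) \ P3 w).image (fun q => p * q))).card : ℝ) =
      ∑ p ∈ P3 w, ((P3 (Z / p) \ P3 w).card : ℝ) := by
    rw [card_biUnion hdisj]
    push_cast
    apply sum_congr rfl
    intro p hp
    rw [mem_P3] at hp
    rw [card_image_of_injective]
    intro x y hxy
    exact Nat.eq_of_mul_eq_mul_left hp.2.1.pos hxy
  have hle : (((P3 w).biUnion (fun p => (P3 (Z / p) \ P3 w).image (fun q => p * q))).card : ℝ) ≤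
      (((Finset.Ioc 0 Z).filter Semi).card : ℝ) := by
    exact_mod_cast card_le_card hsub
  refine le_trans ?_ hle
  rw [hcard]
  unfold La
  rw [mul_sum, sum_mul]
  apply sum_le_sum
  intro p hp
  rw [mem_P3] at hp
  have hp0 : (0 : ℝ) < p := by exact_mod_cast hp.2.1.pos
  have hps : (p : ℝ) ≤ s := le_trans (by exact_mod_cast hp.1) hws
  obtain ⟨N, hN⟩ : ∃ N, N = Z / p := ⟨_, rfl⟩
  rw [← hN]
  have hZp : s ^ 3 ≤ Z / p := by
    rw [le_div_iff₀ hp0, ← hs4]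
    have : s ^ 3 * p ≤ s ^ 3 * s := by gcongr
    linarith [pow_succ s 3]
  have hN1 : (Z : ℝ) / p < N + 1 := by
    rw [div_lt_iff₀ hp0]
    have h8 := Nat.div_add_mod Z p
    have h9 := Nat.mod_lt Z hp.2.1.pos
    have : Z < (N + 1) * p := by
      rw [hN]
      nlinarith
    exact_mod_cast this
  have hNle : (N : ℝ) ≤ Z / p := by
    rw [hN]
    exact Nat.cast_div_le
  have hs3 : 64 ≤ s ^ 3 := by
    calc (64 : ℝ) = 4 ^ 3 := by norm_num
      _ ≤ s ^ 3 := pow_le_pow_left₀ (by norm_num) hs2 3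
  have hNx : x0 ≤ N := by
    have h5 : ((x0 : ℝ) + 2) ≤ s ^ 2 := by
      have h6 : ((x0 : ℝ) + 2) ^ 2 ≤ (s ^ 2) ^ 2 := by
        calc ((x0 : ℝ) + 2) ^ 2 ≤ Z := by exact_mod_cast hZc
          _ = (s ^ 2) ^ 2 := by rw [← hs4]; ring
      exact le_of_sq_le_sq h6 (by positivity)
    have h7 : s ^ 2 ≤ s ^ 3 := pow_le_pow_right₀ (by linarith) (by norm_num)
    have : (x0 : ℝ) ≤ N := by linarith
    exact_mod_cast this
  have hN2 : (1 : ℝ) < N := by linarith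
  have hlN : 0 < Real.log N := Real.log_pos hN2
  have hlNZ : Real.log N ≤ Real.log Z := by
    apply Real.log_le_log (by linarith)
    refine hNle.trans ?_
    rw [div_le_iff₀ hp0]
    have : (1 : ℝ) ≤ p := by exact_mod_cast hp.2.1.one_lt.le
    nlinarith
  have h5 := hx0 N hNx
  have h6 : ((P3 N).card : ℝ) - w ≤ ((P3 N \ P3 w).card : ℝ) := by
    have e1 : (P3 N).card ≤ (P3 N \ P3 w).card + (P3 w).card := by
      have h9 := card_le_card_sdiff_add_card (s := P3 N) (t := P3 w)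
      omega
    have e2 : (P3 w).card ≤ w := by
      unfold P3
      refine (card_filter_le _ _).trans ?_
      rw [Nat.card_Icc]
      omega
    have e3 : ((P3 N).card : ℝ) ≤ (P3 N \ P3 w).card + (P3 w).card := by exact_mod_cast e1
    have e4 : ((P3 w).card : ℝ) ≤ w := by exact_mod_cast e2
    linarith
  have h7 : (1 / 8 : ℝ) * (N / Real.log Z) ≤ 1 / 8 * (N / Real.log N) := by gcongr
  have h8 : (1 / 16 : ℝ) * (1 / (p : ℝ)) * (Z / Real.log Z) + w ≤ 1 / 8 * (N / Real.log Z) := by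
    have e : (1 / 16 : ℝ) * (1 / (p : ℝ)) * (Z / Real.log Z) + w =
        (1 / 16 * (Z / p) + w * Real.log Z) / Real.log Z := by
      field_simp
    have e' : (1 / 8 : ℝ) * (N / Real.log Z) = (1 / 8 * N) / Real.log Z := by ring
    rw [e, e']
    apply div_le_div_of_nonneg_right _ hlZ.le
    have h9 : (w : ℝ) * Real.log Z ≤ s * (s / 64) := by gcongr
    have h10 : s ^ 2 * 4 ≤ s ^ 3 := by
      rw [pow_succ s 2]
      gcongr
    nlinarith
  linarith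

/-- the limit for the products of two primes -/
theorem semi_tendsto (hN0 : P_N0) (hN0d : P_N0d) (hN1 : P_N1) (hN3 : P_N3) (h4 : P_N4) (hKF : P_KF)
    (h5b : P_N5b) (hN6 : P_N6) (hBH : P2_BH) (hRC : P2_RC) (hAS : P3_AS0) (a : ℝ) (ha : 2 < a)
    (ε : ℝ) (hε : 0 < ε) :
    Tendsto (fun X : ℕ => (((Finset.Ioc 0 X).filter (fun D => Semi D ∧ ¬ GoodE a ε D)).card : ℝ) /
      (((Finset.Ioc 0 X).filter Semi).card : ℝ)) atTop (nhds 0) := by
  rw [Metric.tendsto_atTop]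
  intro κ hκ
  obtain ⟨C, hC, Z1, hZ1⟩ := upper hN0 hN0d hN1 hN3 h4 hKF h5b hN6 hBH hRC hAS a ha ε hε
    (κ / 64) (by positivity)
  obtain ⟨Z2, hZ2⟩ := lower
  obtain ⟨L, hL0, hCH1, -, -⟩ := T2_CH
  have ht : Tendsto (fun X : ℕ => La ⌊(X : ℝ) ^ ((1 : ℝ) / 2 ^ 2)⌋₊) atTop atTop :=
    La_tendsto.comp (tendsto_nat_floor_atTop.comp
      ((tendsto_rpow_atTop (by norm_num)).comp tendsto_natCast_atTop_atTop))
  obtain ⟨Z3, hZ3⟩ := eventually_atTop.1 (ht.eventually_ge_atTop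
    ((κ / 64 * (2 * L) + C) / (κ / 64) + 1))
  refine ⟨max (max Z1 Z2) (max Z3 3), fun Z hZ => ?_⟩
  have h1 := hZ1 Z ((le_max_left _ _).trans ((le_max_left _ _).trans hZ))
  have h2 := hZ2 Z ((le_max_right _ _).trans ((le_max_left _ _).trans hZ))
  have h3 := hZ3 Z ((le_max_left _ _).trans ((le_max_right _ _).trans hZ))
  have hZ3' : (3 : ℝ) ≤ Z := by
    exact_mod_cast (le_max_right _ _).trans ((le_max_right _ _).trans hZ)
  have hlZ : 0 < Real.log Z := Real.log_pos (by linarith)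
  obtain ⟨A, hA⟩ : ∃ A, A = La ⌊(Z : ℝ) ^ ((1 : ℝ) / 2 ^ 2)⌋₊ := ⟨_, rfl⟩
  rw [← hA] at h2 h3
  have h4' : La Z ≤ A + 2 * L := by
    have h5 := block L hL0.le hCH1 2 (Z : ℝ) (by linarith)
    have hsub : P3 Z ⊆ P3 ⌊(Z : ℝ) ^ ((1 : ℝ) / 2 ^ 2)⌋₊ ∪
        (Finset.Ioc ⌊(Z : ℝ) ^ ((1 : ℝ) / 2 ^ 2)⌋₊ ⌊(Z : ℝ)⌋₊).filter Nat.Prime := by
      intro p hp
      rw [mem_P3] at hp
      rw [mem_union, mem_P3, mem_filter, mem_Ioc, Nat.floor_natCast]
      by_cases h6 : p ≤ ⌊(Z : ℝ) ^ ((1 : ℝ) / 2 ^ 2)⌋₊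
      · exact Or.inl ⟨h6, hp.2⟩
      · exact Or.inr ⟨⟨not_le.1 h6, hp.1⟩, hp.2.1⟩
    have h6 : La Z ≤ La ⌊(Z : ℝ) ^ ((1 : ℝ) / 2 ^ 2)⌋₊ +
        ∑ p ∈ (Finset.Ioc ⌊(Z : ℝ) ^ ((1 : ℝ) / 2 ^ 2)⌋₊ ⌊(Z : ℝ)⌋₊).filter Nat.Prime,
          1 / (p : ℝ) := by
      unfold La
      exact (sum_le_sum_of_subset_of_nonneg hsub (fun p _ _ => by positivity)).trans
        (sum_un_le _ _ _ (fun p => by positivity))
    rw [← hA] at h6
    push_cast at h5
    linarith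
  obtain ⟨V, hV⟩ : ∃ V, V = (Z : ℝ) / Real.log Z := ⟨_, rfl⟩
  have hV0 : 0 < V := by rw [hV]; positivity
  rw [← hV] at h1 h2
  have h5 : (κ / 64 * (2 * L) + C) + κ / 64 ≤ κ / 64 * A := by
    have e : κ / 64 * ((κ / 64 * (2 * L) + C) / (κ / 64) + 1) =
        (κ / 64 * (2 * L) + C) + κ / 64 := by
      field_simp
    rw [← e]
    gcongr
  have hA0 : 0 < A := by
    have h6 : 0 < κ / 64 * A := lt_of_lt_of_le (by positivity) h5
    by_contra hcon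
    push Not at hcon
    have : κ / 64 * A ≤ 0 := mul_nonpos_of_nonneg_of_nonpos (by positivity) hcon
    linarith
  have hden : 0 < (((Finset.Ioc 0 Z).filter Semi).card : ℝ) :=
    lt_of_lt_of_le (by positivity) h2
  rw [Real.dist_eq, sub_zero, abs_of_nonneg (by positivity), div_lt_iff₀ hden]
  have h7 : κ / 64 * La Z * V + C * V ≤ 2 * (κ / 64) * A * V := by
    have h8 : κ / 64 * La Z ≤ κ / 64 * (A + 2 * L) := by gcongr
    have h9 : κ / 64 * La Z + C ≤ 2 * (κ / 64) * A := by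
      nlinarith
    calc κ / 64 * La Z * V + C * V = (κ / 64 * La Z + C) * V := by ring
      _ ≤ 2 * (κ / 64) * A * V := by gcongr
  have h10 : 2 * (κ / 64) * A * V = κ / 2 * (1 / 16 * A * V) := by ring
  have h11 : κ / 2 * (1 / 16 * A * V) ≤ κ / 2 * (((Finset.Ioc 0 Z).filter Semi).card : ℝ) := by
    gcongr
  have h12 : κ / 2 * (((Finset.Ioc 0 Z).filter Semi).card : ℝ) <
      κ * (((Finset.Ioc 0 Z).filter Semi).card : ℝ) := by
    apply mul_lt_mul_of_pos_right _ hden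
    linarith
  linarith

end Pool.Agent.Y892.UF
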