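import Pool.Agent.Y892.UF.W6

/-!
The family `d = 2 p`.
-/

set_option autoImplicit false

namespace Pool.Agent.Y892.UF

open Finset Filter Pool.Agent.H38R2.CG Pool.Agent.H38R2.CG2 Pool.Agent.H38R2.CG3
open Pool.Agent.H38R2.CG.FINh Pool.Agent.H38R2.CG2.APh
open scoped Classical

/-- the weight of `8 p` is one -/
theorem wt_one8 {z X : ℕ} {P : Finset ℕ} {δ : ℝ} {C0 : ℕ} {ρ : ℕ → ℝ} (hX : 65 ≤ X)
    (hδ : δ ≤ 1 / 2) (h : SWt z X P δ C0 ρ) (h1 : ρ 1 = 1) {p : ℕ} (hXD : X < 8 * p)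
    (hp : p.Prime) : wt ρ (8 * p) = 1 := by
  have hpX : (X : ℝ) < 8 * p := by exact_mod_cast hXD
  have hX0 : (65 : ℝ) ≤ X := by exact_mod_cast hX
  unfold wt
  have key : ∀ d ∈ (8 * p).divisors, d ≠ 1 → ρ d = 0 := by
    intro d hd hd1
    by_contra h0
    obtain ⟨h2, h3, h4, h5, -⟩ := h.supp d h0
    have hodd : Nat.Coprime d 2 := by
      refine Nat.Coprime.coprime_dvd_right ?_ h5
      exact Dvd.dvd.trans (by norm_num) (AS1h.dvd16 z)
    have hd8 : Nat.Coprime d 8 := by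
      have := Nat.Coprime.pow_right 3 hodd
      simpa using this
    have hdp : d ∣ p := by
      have hdD := (Nat.mem_divisors.1 hd).1
      exact hd8.dvd_of_dvd_mul_left hdD
    have hdeq : d = p := (hp.eq_one_or_self_of_dvd d hdp).resolve_left hd1
    rw [hdeq] at h3
    have h6 : (X : ℝ) ^ δ ≤ (X : ℝ) ^ (1 / 2 : ℝ) :=
      Real.rpow_le_rpow_of_exponent_le (by linarith) hδ
    rw [← Real.sqrt_eq_rpow] at h6
    have h7 : (X : ℝ) < 8 * √(X : ℝ) := by linarith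
    have h8 : √(X : ℝ) * √(X : ℝ) = X := Real.mul_self_sqrt (by linarith)
    have h9 : 0 ≤ √(X : ℝ) := Real.sqrt_nonneg _
    have h10 : √(X : ℝ) < 8 := by
      by_contra hc
      push Not at hc
      nlinarith
    nlinarith
  rw [Finset.sum_eq_single_of_mem 1 (Nat.mem_divisors.2 ⟨one_dvd _, by omega⟩) key, h1]

/-- the residue of `8 p` is coprime to the small odd primes -/
theorem res_cop8 {z X p : ℕ} (hXD : X < 8 * p) (hp : p.Prime) (hX : 8 * z ≤ X) :
    ∀ q ∈ (Finset.Icc 3 z).filter Nat.Prime, ¬ q ∣ (8 * p) % Qz z := by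
  intro q hq hdvd
  obtain ⟨hq1, hqp⟩ := Finset.mem_filter.1 hq
  obtain ⟨hq3, hqz⟩ := Finset.mem_Icc.1 hq1
  have hqD : q ∣ 8 * p := (Nat.dvd_mod_iff (small_dvd_Qz hq)).1 hdvd
  have hqpp : q ∣ p := by
    rcases (Nat.Prime.dvd_mul hqp).1 hqD with h2 | h2
    · exfalso
      have h3 : q ∣ 2 := hqp.dvd_of_dvd_pow (show q ∣ 2 ^ 3 by norm_num; exact h2)
      have h4 := Nat.le_of_dvd (by norm_num) h3
      omega
    · exact h2
  have hqe : q = p := (Nat.prime_dvd_prime_iff_eq hqp hp).1 hqpp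
  omega

/-- few exceptional discriminants `8 p` in a short interval -/
theorem short_8 (hAS : P3_AS0) (hBH : P2_BH) (hRC : P2_RC) (a : ℝ) (ha : 2 < a) (t0 : ℝ)
    (ht0 : 0 < t0) (ε : ℝ) (hε : 0 < ε) : ∃ η : ℝ, 0 < η ∧ η ≤ 1 ∧ ∃ X0 : ℕ, ∀ X ≥ X0,
    (((Finset.Ioc X ⌊(1 + η) * X⌋₊).filter (fun D => (∃ p : ℕ, p.Prime ∧ D = 8 * p) ∧
      IsFund D ∧ Bd a t0 X D)).card : ℝ) ≤ ε * η * X / Real.log X := by
  obtain ⟨hcc0, hcc1⟩ := cc_bd ha
  obtain ⟨C0, hC0, hB⟩ := hBH (cc a) hcc0 (by linarith)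
  have hC0' : (1 : ℝ) ≤ C0 := by exact_mod_cast hC0
  obtain ⟨z0, hz0⟩ := hAS a ha t0 ht0 C0 hC0 (ε / C0) (by positivity)
  set z := max 2 z0 with hz
  have hz2 : 2 ≤ z := le_max_left _ _
  obtain ⟨η1, hη1, H⟩ := hz0 z (le_max_right _ _)
  obtain ⟨XB, hXB⟩ := hB z hz2 a ha
  have hηpos : 0 < min η1 1 := lt_min hη1 one_pos
  refine ⟨min η1 1, hηpos, min_le_right _ _, ?_⟩
  set η := min η1 1 with hη
  have H' : ∀ r : ℕ, ∃ X0 : ℕ, ∀ X ≥ X0, ∀ ρ : ℕ → ℝ, SWt z X (PA a X) (cc a) C0 ρ →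
      FundRes z r →
      ∑ D ∈ (FD z r X η).filter (fun D => Bd a t0 X D), wt ρ D ≤ ε / C0 * WW z X η ρ := by
    intro r
    by_cases hr : FundRes z r
    · obtain ⟨X0, hX0⟩ := H η hηpos (min_le_left _ _) r hr
      exact ⟨X0, fun X hX ρ hρ _ => hX0 X hX ρ hρ⟩
    · exact ⟨0, fun X _ ρ _ hr' => absurd hr' hr⟩
  choose X0 hX0 using H'
  refine ⟨max (max ((Finset.range (Qz z)).sup X0) XB) (max 65 (8 * z)), ?_⟩
  intro X hX
  have hX1 : (Finset.range (Qz z)).sup X0 ≤ X :=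
    (le_max_left _ _).trans ((le_max_left _ _).trans hX)
  have hX2 : XB ≤ X := (le_max_right _ _).trans ((le_max_left _ _).trans hX)
  have hX3 : 65 ≤ X := (le_max_left _ _).trans ((le_max_right _ _).trans hX)
  have hX4 : 8 * z ≤ X := (le_max_right _ _).trans ((le_max_right _ _).trans hX)
  obtain ⟨ρ, hρ, hρ1, hGG⟩ := hXB X hX2
  have hX17 : (65 : ℝ) ≤ X := by exact_mod_cast hX3
  have hlog : 0 < Real.log X := Real.log_pos (by linarith)
  have hGpos : 0 ≤ GG X ρ := le_trans (by positivity) hρ.low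
  set S := (Finset.Ioc X ⌊(1 + η) * X⌋₊).filter (fun D =>
    (∃ p : ℕ, p.Prime ∧ D = 8 * p) ∧ IsFund D ∧ Bd a t0 X D) with hS
  have hcard : S.card = ∑ r ∈ Finset.range (Qz z), (S.filter (fun D => D % Qz z = r)).card := by
    apply Finset.card_eq_sum_card_fiberwise
    intro D _
    simp only [Finset.coe_range, Set.mem_Iio]
    exact Nat.mod_lt _ (AS1h.Qz_pos z)
  have hQ : (0 : ℝ) < Qz z := by exact_mod_cast AS1h.Qz_pos z
  have hW : 0 ≤ ε / C0 * WW z X η ρ := by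
    unfold WW
    positivity
  have hle : ∀ r ∈ Finset.range (Qz z),
      ((S.filter (fun D => D % Qz z = r)).card : ℝ) ≤
        if (∀ q ∈ (Finset.Icc 3 z).filter Nat.Prime, ¬ q ∣ r) then ε / C0 * WW z X η ρ else 0 := by
    intro r hr
    by_cases hfr : FundRes z r ∧ ∀ q ∈ (Finset.Icc 3 z).filter Nat.Prime, ¬ q ∣ r
    · rw [if_pos hfr.2]
      refine le_trans ?_ (hX0 r X (le_trans (Finset.le_sup hr) hX1) ρ hρ hfr.1)
      have hsub : (S.filter (fun D => D % Qz z = r)) ⊆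
          ((FD z r X η).filter (fun D => Bd a t0 X D)) := by
        intro D hD
        simp only [hS, FD, DD, Finset.mem_filter] at hD ⊢
        exact ⟨⟨⟨hD.1.1, hD.2⟩, hD.1.2.2.1⟩, hD.1.2.2.2⟩
      have e1 : ((S.filter (fun D => D % Qz z = r)).card : ℝ) =
          ∑ D ∈ S.filter (fun D => D % Qz z = r), wt ρ D := by
        rw [Finset.sum_congr rfl (g := fun _ => (1 : ℝ)), Finset.sum_const, nsmul_eq_mul, mul_one]
        intro D hD
        simp only [hS, Finset.mem_filter, Finset.mem_Ioc] at hD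
        obtain ⟨p, hp, hDp⟩ := hD.1.2.1
        rw [hDp]
        exact wt_one8 hX3 hcc1 hρ hρ1 (by rw [← hDp]; exact hD.1.1.1) hp
      rw [e1]
      refine Finset.sum_le_sum_of_subset_of_nonneg hsub ?_
      intro D hD _
      simp only [FD, DD, Finset.mem_filter, Finset.mem_Ioc] at hD
      exact wt_nonneg (by omega) (by linarith) hρ D (by omega)
    · have hemp : (S.filter (fun D => D % Qz z = r)) = ∅ := by
        rw [Finset.filter_eq_empty_iff]
        intro D hD hDr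
        apply hfr
        simp only [hS, Finset.mem_filter, Finset.mem_Ioc] at hD
        obtain ⟨p, hp, hDp⟩ := hD.2.1
        rw [← hDr]
        refine ⟨AS1h.fundRes z D hD.2.2.1, ?_⟩
        rw [hDp]
        exact res_cop8 (by rw [← hDp]; exact hD.1.1) hp hX4
      rw [hemp, Finset.card_empty, Nat.cast_zero]
      split_ifs
      · exact hW
      · exact le_rfl
  rw [hcard]
  push_cast
  refine le_trans (Finset.sum_le_sum hle) ?_
  rw [← Finset.sum_filter, Finset.sum_const, nsmul_eq_mul]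
  have hRC' : ∀ inst : DecidablePred fun r : ℕ =>
      ∀ q ∈ (Finset.Icc 3 z).filter Nat.Prime, ¬ q ∣ r,
      (((@Finset.filter ℕ (fun r : ℕ => ∀ q ∈ (Finset.Icc 3 z).filter Nat.Prime, ¬ q ∣ r) inst
        (Finset.range (Qz z))).card : ℕ) : ℝ) =
      Qz z * ∏ q ∈ (Finset.Icc 3 z).filter Nat.Prime, (1 - (1 : ℝ) / q) := by
    intro inst
    have h5 := hRC z
    convert h5
  refine (le_of_eq (congrArg (fun t : ℝ => t * (ε / C0 * WW z X η ρ)) (hRC' _))).trans ?_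
  show (Qz z : ℝ) * (∏ q ∈ (Finset.Icc 3 z).filter Nat.Prime, (1 - (1 : ℝ) / q)) *
    (ε / C0 * WW z X η ρ) ≤ ε * η * X / Real.log X
  unfold WW
  have e2 : (Qz z : ℝ) * (∏ q ∈ (Finset.Icc 3 z).filter Nat.Prime, (1 - (1 : ℝ) / q)) *
      (ε / C0 * (η * X / Qz z * GG X ρ)) = ε / C0 * (η * X) *
        (GG X ρ * ∏ q ∈ (Finset.Icc 3 z).filter Nat.Prime, (1 - (1 : ℝ) / q)) := by
    field_simp
  rw [e2]
  calc ε / C0 * (η * X) *
        (GG X ρ * ∏ q ∈ (Finset.Icc 3 z).filter Nat.Prime, (1 - (1 : ℝ) / q))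
      ≤ ε / C0 * (η * X) * (C0 / Real.log X) :=
        mul_le_mul_of_nonneg_left hGG (by positivity)
    _ = ε * η * X / Real.log X := by
        field_simp

/-- the numbers `2 p`, `p ≡ 3 mod 4` -/
def Two (d : ℕ) : Prop := ∃ p : ℕ, p.Prime ∧ p % 4 = 3 ∧ d = 2 * p

theorem two_tendsto (hN0 : P_N0) (hN0d : P_N0d) (hN1 : P_N1) (hN3 : P_N3) (h4 : P_N4) (hKF : P_KF)
    (h5b : P_N5b) (hN6 : P_N6) (hBH : P2_BH) (hRC : P2_RC) (hAS : P3_AS0) (a : ℝ) (ha : 2 < a)
    (ε : ℝ) (hε : 0 < ε) :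
    Tendsto (fun X : ℕ => (((Finset.Ioc 0 X).filter (fun D => Two D ∧ ¬ GoodE a ε D)).card : ℝ) /
      (((Finset.Ioc 0 X).filter Two).card : ℝ)) atTop (nhds 0) := by
  rw [Metric.tendsto_atTop]
  intro κ hκ
  obtain ⟨R, hR⟩ : ∃ R : ℕ → Prop, ∀ D, R D ↔ ∃ d : ℕ, Two d ∧ ¬ GoodE a ε d ∧ D = 4 * d :=
    ⟨_, fun _ => Iff.rfl⟩
  obtain ⟨C, hC0, hC⟩ : ∃ C : ℝ, 0 ≤ C ∧ ∀ Z : ℕ, 2 ≤ Z →
      (NR R Z : ℝ) ≤ 4 * (κ / 2000) * Z / Real.log Z + C + 2 * √(Z : ℝ) := by
    obtain ⟨η, hη, hη1, X0, hX0⟩ := short_8 hAS hBH hRC a ha (min ε (1 / 4))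
      (lt_min hε (by norm_num)) (κ / 2000) (by positivity)
    obtain ⟨X1, hX1⟩ := exc_bd hN0 hN0d hN1 hN3 h4 hKF h5b hN6 a ha ε
    refine ⟨6 / η + 2 * ((X0 : ℝ) + X1) + 2, by positivity, fun Z hZ => ?_⟩
    have hZ2 : (2 : ℝ) ≤ Z := by exact_mod_cast hZ
    have hlZ : 0 < Real.log Z := Real.log_pos (by linarith)
    have hsZ : 0 ≤ √(Z : ℝ) := Real.sqrt_nonneg _
    have hstep : ∀ X : ℕ, ((X0 : ℝ) + X1) + √(Z : ℝ) ≤ X →
        (NR R ⌊(1 + η) * X⌋₊ : ℝ) ≤ NR R X + 2 * (κ / 2000) / Real.log Z * η * X := by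
      intro X hX
      have p0 : (0 : ℝ) ≤ X0 := by positivity
      have p1 : (0 : ℝ) ≤ X1 := by positivity
      have hXX0 : X0 ≤ X := by
        have : (X0 : ℝ) ≤ X := by linarith
        exact_mod_cast this
      have hXX1 : X1 ≤ X := by
        have : (X1 : ℝ) ≤ X := by linarith
        exact_mod_cast this
      have hXZ : √(Z : ℝ) ≤ X := by linarith
      have hlog : Real.log Z / 2 ≤ Real.log X := by
        have e1 := Real.log_le_log (Real.sqrt_pos.2 (by linarith : (0 : ℝ) < Z)) hXZ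
        rwa [Real.log_sqrt (by linarith)] at e1
      have hle : X ≤ ⌊(1 + η) * (X : ℝ)⌋₊ := by
        apply Nat.le_floor
        have : (0 : ℝ) ≤ X := by positivity
        nlinarith
      have h2 := NR_add R hle
      have h3 := hX0 X hXX0
      have h2' : (NR R ⌊(1 + η) * (X : ℝ)⌋₊ : ℝ) ≤
          NR R X + (((Finset.Ioc X ⌊(1 + η) * (X : ℝ)⌋₊).filter R).card : ℝ) := by
        exact_mod_cast h2
      have hsub : (Finset.Ioc X ⌊(1 + η) * (X : ℝ)⌋₊).filter R ⊆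
          (Finset.Ioc X ⌊(1 + η) * (X : ℝ)⌋₊).filter (fun D => (∃ p : ℕ, p.Prime ∧ D = 8 * p) ∧
            IsFund D ∧ Bd a (min ε (1 / 4)) X D) := by
        intro D hD
        rw [mem_filter, hR] at hD
        rw [mem_filter]
        obtain ⟨hD1, d, ⟨p, hp, hp4, rfl⟩, hg, rfl⟩ := hD
        have hsq : Squarefree (2 * p) := by
          rw [Nat.squarefree_mul]
          · exact ⟨Nat.prime_two.squarefree, hp.squarefree⟩
          · rw [Nat.coprime_primes Nat.prime_two hp]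
            rintro rfl
            omega
        have h1 : 1 < 2 * p := by
          have := hp.two_le
          omega
        have hDof : Dof (2 * p) = 4 * (2 * p) := by
          unfold Dof
          rw [if_neg]
          omega
        refine ⟨hD1, ⟨p, hp, by ring⟩, ?_⟩
        have h5 := hX1 X hXX1 (2 * p) h1 hsq hg
        rw [hDof] at h5
        refine h5 (mem_Ioc.1 hD1).1 ?_
        have e1 := (mem_Ioc.1 hD1).2
        have e2 : ((⌊(1 + η) * (X : ℝ)⌋₊ : ℕ) : ℝ) ≤ (1 + η) * (X : ℝ) :=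
          Nat.floor_le (by positivity)
        have e3 : ((4 * (2 * p) : ℕ) : ℝ) ≤ (⌊(1 + η) * (X : ℝ)⌋₊ : ℝ) := by exact_mod_cast e1
        have e5 : ((4 * (2 * p) : ℕ) : ℝ) ≤ 2 * (X : ℝ) := by
          have : (0 : ℝ) ≤ X := by positivity
          nlinarith
        exact_mod_cast e5
      have h3' : (((Finset.Ioc X ⌊(1 + η) * (X : ℝ)⌋₊).filter R).card : ℝ) ≤
          κ / 2000 * η * X / Real.log X := by
        refine le_trans ?_ h3
        exact_mod_cast card_le_card hsub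
      have h4 : κ / 2000 * η * X / Real.log X ≤ 2 * (κ / 2000) / Real.log Z * η * X := by
        calc κ / 2000 * η * X / Real.log X ≤ κ / 2000 * η * X / (Real.log Z / 2) := by
              apply div_le_div_of_nonneg_left (by positivity) (by positivity) hlog
          _ = 2 * (κ / 2000) / Real.log Z * η * X := by
              field_simp
      linarith
    have h5 := PFh.iter (NR R) (NR_le R) (NR_mono R) η (2 * (κ / 2000) / Real.log Z)
      (((X0 : ℝ) + X1) + √(Z : ℝ)) hη hη1 (by positivity) (by positivity) hstep Z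
    have h6 : 2 * (2 * (κ / 2000) / Real.log Z) * (Z : ℝ) = 4 * (κ / 2000) * Z / Real.log Z := by
      ring
    rw [h6] at h5
    linarith
  obtain ⟨Y0, hY0⟩ := eventually_atTop.1 P3_lower
  obtain ⟨Y1, hY1⟩ := PFh.sqrt_small C (κ / 200) (by positivity)
  refine ⟨max (max (2 * Y0 + 1) Y1) 8, fun Y hY => ?_⟩
  have hYa : 2 * Y0 + 1 ≤ Y := le_trans (le_max_left _ _) (le_trans (le_max_left _ _) hY)
  have hYb : Y1 ≤ Y := le_trans (le_max_right _ _) (le_trans (le_max_left _ _) hY)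
  have hYc : 8 ≤ Y := le_trans (le_max_right _ _) hY
  have hYr : (8 : ℝ) ≤ Y := by exact_mod_cast hYc
  have hl : 0 < Real.log Y := Real.log_pos (by linarith)
  -- lower bound
  have hlow : (1 / 32 : ℝ) * (Y / Real.log Y) ≤ (((Finset.Ioc 0 Y).filter Two).card : ℝ) := by
    have h1 := hY0 (Y / 2) (by omega)
    have h2 : (P3 (Y / 2)).card ≤ ((Finset.Ioc 0 Y).filter Two).card := by
      refine card_le_card_of_injOn (fun p => 2 * p) ?_ ?_
      · intro p hp
        rw [mem_coe, mem_P3] at hp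
        rw [mem_coe, mem_filter, mem_Ioc]
        have h9 := hp.2.1.pos
        have h10 := hp.1
        refine ⟨⟨?_, ?_⟩, p, hp.2.1, hp.2.2, rfl⟩
        · show 0 < 2 * p
          omega
        · show 2 * p ≤ Y
          omega
      · intro p _ q _ h
        have : 2 * p = 2 * q := h
        omega
    have h3 : ((P3 (Y / 2)).card : ℝ) ≤ (((Finset.Ioc 0 Y).filter Two).card : ℝ) := by
      exact_mod_cast h2
    refine le_trans ?_ (h1.trans h3)
    have h4 : (2 : ℝ) ≤ ((Y / 2 : ℕ) : ℝ) := by exact_mod_cast (by omega : 2 ≤ Y / 2)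
    have h5 : 0 < Real.log ((Y / 2 : ℕ) : ℝ) := Real.log_pos (by linarith)
    have h6 : ((Y / 2 : ℕ) : ℝ) ≤ Y := by exact_mod_cast Nat.div_le_self Y 2
    have h7 : Real.log ((Y / 2 : ℕ) : ℝ) ≤ Real.log Y := Real.log_le_log (by linarith) h6
    have h8 : (Y : ℝ) ≤ 4 * ((Y / 2 : ℕ) : ℝ) := by
      exact_mod_cast (by omega : Y ≤ 4 * (Y / 2))
    calc (1 / 32 : ℝ) * (Y / Real.log Y) ≤ 1 / 32 * (4 * ((Y / 2 : ℕ) : ℝ) /
          Real.log ((Y / 2 : ℕ) : ℝ)) := by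
          apply mul_le_mul_of_nonneg_left _ (by norm_num)
          exact div_le_div₀ (by positivity) h8 h5 h7
      _ = 1 / 8 * (((Y / 2 : ℕ) : ℝ) / Real.log ((Y / 2 : ℕ) : ℝ)) := by ring
  have hden : 0 < (((Finset.Ioc 0 Y).filter Two).card : ℝ) :=
    lt_of_lt_of_le (by positivity) hlow
  rw [Real.dist_eq, sub_zero, abs_of_nonneg (by positivity), div_lt_iff₀ hden]
  have hcn : ((Finset.Ioc 0 Y).filter (fun d => Two d ∧ ¬ GoodE a ε d)).card ≤ NR R (4 * Y) := by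
    unfold NR
    refine Finset.card_le_card_of_injOn (fun d => 4 * d) ?_ ?_
    · intro d hd
      rw [Finset.mem_coe, Finset.mem_filter, Finset.mem_Ioc] at hd
      rw [Finset.mem_coe, Finset.mem_filter, Finset.mem_Ioc, hR]
      refine ⟨⟨?_, ?_⟩, d, hd.2.1, hd.2.2, rfl⟩
      · show 0 < 4 * d
        omega
      · show 4 * d ≤ 4 * Y
        omega
    · intro d _ d' _ h
      have : 4 * d = 4 * d' := h
      omega
  have hc : (((Finset.Ioc 0 Y).filter (fun d => Two d ∧ ¬ GoodE a ε d)).card : ℝ) ≤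
      NR R (4 * Y) := by exact_mod_cast hcn
  have hb := hC (4 * Y) (by omega)
  have h4 : √(((4 * Y : ℕ) : ℝ)) = 2 * √(Y : ℝ) := by
    push_cast
    rw [Real.sqrt_mul (by norm_num)]
    congr 1
    rw [show (4 : ℝ) = 2 ^ 2 by norm_num]
    exact Real.sqrt_sq (by norm_num)
  have h5 : 4 * (κ / 2000) * ((4 * Y : ℕ) : ℝ) / Real.log ((4 * Y : ℕ) : ℝ) ≤
      4 * (κ / 2000) * (4 * Y) / Real.log Y := by
    push_cast
    apply div_le_div_of_nonneg_left (by positivity) hl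
    apply Real.log_le_log (by linarith)
    linarith
  have h6 := hY1 Y hYb
  have h7 : 4 * (κ / 2000) * (4 * (Y : ℝ)) / Real.log Y = (1 / 125) * (κ * (Y / Real.log Y)) := by
    ring
  have h8 : κ / 200 * (Y : ℝ) / Real.log Y = (1 / 200) * (κ * (Y / Real.log Y)) := by ring
  have h9 : 0 < κ * (Y / Real.log Y) := by positivity
  have h10 : (1 / 32 : ℝ) * (κ * (Y / Real.log Y)) ≤
      κ * (((Finset.Ioc 0 Y).filter Two).card : ℝ) := by
    calc (1 / 32 : ℝ) * (κ * (Y / Real.log Y)) = κ * (1 / 32 * (Y / Real.log Y)) := by ring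
      _ ≤ _ := mul_le_mul_of_nonneg_left hlow hκ.le
  rw [h4] at hb
  rw [h7] at h5
  rw [h8] at h6
  linarith

end Pool.Agent.Y892.UF
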