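import Pool.Agent.Y892.UF.W7
import Pool.Agent.H38R2.CG3.All

/-!
Assembly of the analytic part.
-/

set_option autoImplicit false

namespace Pool.Agent.Y892.UF

open Finset Filter Pool.Agent.H38R2.CG Pool.Agent.H38R2.CG2 Pool.Agent.H38R2.CG3
open scoped Classical

theorem AS0_true : P3_AS0 := by
  have h_P_N0 : P_N0 := T_N0
  have h_P_N0d : P_N0d := T_N0d
  have h_P_SPL : P_SPL := T_SPL h_P_N0
  have h_P_N1 : P_N1 := T_N1 h_P_SPL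
  have h_P_N2 : P_N2 := T_N2 h_P_SPL
  have h_P_KR : P_KR := T_KR
  have h_P_PV : P_PV := T_PV
  have h_P_N3a : P_N3a := T_N3a h_P_KR h_P_PV
  have h_P_N3b : P_N3b := T_N3b h_P_KR h_P_PV h_P_N3a
  have h_P_N3 : P_N3 := T_N3 h_P_N2 h_P_N3b
  have h_P_N4a : P_N4a := T_N4a
  have h_P_N4b : P_N4b := T_N4b
  have h_P_N4 : P_N4 := T_N4 h_P_N4a h_P_N4b
  have h_P_KF : P_KF := T_KF
  have h_P_N5b : P_N5b := T_N5b h_P_KF h_P_N4
  have h_P_N6 : P_N6 := T_N6 h_P_KF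
  have h_P_N0e : P_N0e := T_N0e h_P_N0d
  have h_P_N5a : P_N5a := T_N5a h_P_KF
  have h_P_N5 : P_N5 := T_N5 h_P_N3 h_P_N4 h_P_N5a h_P_N5b
  have h_P_NF : P_NF := T_NF h_P_N0 h_P_N0e h_P_N1 h_P_N3 h_P_N5 h_P_N6
  have h_P_NB : P_NB := T_NB
  have h_P2_NB : P2_NB := T2_NB h_P_NB
  have h_P2_WT : P2_WT := T2_WT
  have h_P2_V0 : P2_V0 := T2_V0 h_P2_WT
  have h_P2_V1 : P2_V1 := T2_V1 h_P_PV h_P2_WT
  have h_P2_LM : P2_LM := T2_LM h_P_N3a h_P2_WT h_P2_V0 h_P2_V1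
  have h_P2_SZ : P2_SZ := T2_SZ
  have h_P2_M1L : P2_M1L := T2_M1L h_P2_SZ h_P2_NB h_P2_WT h_P2_V0 h_P2_V1
  have h_P2_COMB : P2_COMB := T2_COMB
  have h_P2_PAIR : P2_PAIR := T2_PAIR
  have h_P2_MLOW : P2_MLOW := T2_MLOW h_P2_SZ h_P2_NB h_P2_COMB h_P2_PAIR h_P2_WT h_P2_V0 h_P2_V1
  have h_P_TB2 : P_TB2 := T_TB2
  have h_P2_T1a : P2_T1a := T2_T1a
  have h_P2_T1 : P2_T1 := T2_T1 h_P2_WT h_P2_T1a
  have h_P2_R1 : P2_R1 := T2_R1
  have h_P2_R2 : P2_R2 := T2_R2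
  have h_P2_T2 : P2_T2 := T2_T2 h_P2_R1 h_P2_R2
  have h_P2_JP : P2_JP := T2_JP
  have h_P_TB3a : P_TB3a := T_TB3a
  have h_P2_ERR : P2_ERR := T2_ERR h_P2_SZ h_P2_NB h_P2_WT h_P2_V0 h_P2_R1 h_P_TB3a
  have h_P2_FJ : P2_FJ := T2_FJ
  have h_P2_OMC : P2_OMC := T2_OMC
  have h_P2_OM : P2_OM := T2_OM h_P_TB2 h_P2_FJ h_P2_OMC
  have h_P_TB3c : P_TB3c := T_TB3c
  have h_P_TB6b : P_TB6b := T_TB6b
  have h_P_TB6c : P_TB6c := T_TB6c
  have h_P2_FS : P2_FS := T2_FS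
  have h_P2_JX : P2_JX := T2_JX
  have h_P2_KB : P2_KB := T2_KB
  have h_P2_HS : P2_HS := T2_HS
  have h_P_LS : P_LS := T_LS
  have h_P_CC5 : P_CC5 := T_CC5 h_P_LS h_P_NB
  have h_P_CC6 : P_CC6 := T_CC6 h_P_NB
  have h_P2_CC7 : P2_CC7 := T2_CC7 h_P_CC5 h_P_CC6
  have h_P_CC1 : P_CC1 := T_CC1
  have h_P_BT : P_BT := T_BT
  have h_P_CC3 : P_CC3 := T_CC3 h_P_BT h_P_NB
  have h_P2_CC4 : P2_CC4 := T2_CC4 h_P_CC1 h_P_CC3
  have h_P2_NBAD : P2_NBAD := T2_NBAD h_P2_NB h_P2_CC4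
  have h_P2_TC : P2_TC := T2_TC h_P2_NB h_P2_FJ h_P2_FS h_P2_JX h_P2_KB h_P2_HS h_P2_CC7 h_P2_NBAD
  have h_P_TB6a : P_TB6a := T_TB6a
  have h_P2_TD : P2_TD := T2_TD h_P_TB6a h_P_TB3c
  have h_P2_TE : P2_TE := T2_TE h_P2_NB h_P2_FJ h_P2_FS h_P2_JX h_P2_KB h_P2_HS h_P2_CC7 h_P2_NBAD h_P2_TD
  have h_P2_TA : P2_TA := T2_TA h_P_TB3c h_P_TB6b h_P_TB6c h_P2_FJ h_P2_JP h_P2_TC h_P2_TE
  have h_P2_TMa : P2_TMa := T2_TMa h_P2_SZ h_P2_NB h_P_TB2 h_P2_FJ h_P2_JP h_P2_OMC h_P2_OM h_P2_TA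
  have h_P2_TMb : P2_TMb := T2_TMb h_P2_SZ h_P2_NB h_P_TB2 h_P_TB3c h_P2_FJ h_P2_JP h_P2_OMC h_P2_OM h_P2_TC
  have h_P2_TC0 : P2_TC0 := T2_TC0 h_P2_FJ h_P2_JX h_P2_KB h_P2_HS
  have h_P2_TMc : P2_TMc := T2_TMc h_P2_SZ h_P2_NB h_P_TB2 h_P_TB3c h_P2_FJ h_P2_JP h_P2_OMC h_P2_OM h_P2_TC0
  have h_P2_TM : P2_TM := T2_TM h_P2_SZ h_P2_NB h_P2_COMB h_P2_PAIR h_P_TB2 h_P2_WT h_P2_T1 h_P2_T2 h_P2_JP h_P2_ERR h_P2_TMa h_P2_TMb h_P2_TMc
  exact T3_AS0 h_P_NF h_P2_NB h_P2_WT h_P2_LM h_P2_M1L h_P2_MLOW h_P2_TM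

theorem BH_true : P2_BH := by
  have h_P2_BF : P2_BF := T2_BF
  have h_P2_HB : P2_HB := T2_HB
  have h_P2_HD : P2_HD := T2_HD h_P2_BF h_P2_HB
  have h_P2_CH : P2_CH := T2_CH
  have h_P2_BHa : P2_BHa := T2_BHa
  have h_P2_MP : P2_MP := T2_MP
  have h_P2_BHc : P2_BHc := T2_BHc h_P2_BF h_P2_HB h_P2_CH h_P2_MP h_P2_BHa
  exact T2_BH h_P2_BF h_P2_HB h_P2_HD h_P2_CH h_P2_BHa h_P2_BHc

theorem N3_true : P_N3 := by
  have h_P_SPL : P_SPL := T_SPL T_N0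
  have h_P_N2 : P_N2 := T_N2 h_P_SPL
  have h_P_KR : P_KR := T_KR
  have h_P_PV : P_PV := T_PV
  have h_P_N3a : P_N3a := T_N3a h_P_KR h_P_PV
  have h_P_N3b : P_N3b := T_N3b h_P_KR h_P_PV h_P_N3a
  exact T_N3 h_P_N2 h_P_N3b

theorem N4_true : P_N4 := T_N4 T_N4a T_N4b

theorem semi_lim (a ε : ℝ) (ha : 2 < a) (hε : 0 < ε) :
    Tendsto (fun X : ℕ => (((Finset.Ioc 0 X).filter (fun D => Semi D ∧ ¬ GoodE a ε D)).card : ℝ) /
      (((Finset.Ioc 0 X).filter Semi).card : ℝ)) atTop (nhds 0) :=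
  semi_tendsto T_N0 T_N0d (T_N1 (T_SPL T_N0)) N3_true N4_true T_KF (T_N5b T_KF N4_true)
    (T_N6 T_KF) BH_true T2_RC AS0_true a ha ε hε

theorem two_lim (a ε : ℝ) (ha : 2 < a) (hε : 0 < ε) :
    Tendsto (fun X : ℕ => (((Finset.Ioc 0 X).filter (fun D => Two D ∧ ¬ GoodE a ε D)).card : ℝ) /
      (((Finset.Ioc 0 X).filter Two).card : ℝ)) atTop (nhds 0) :=
  two_tendsto T_N0 T_N0d (T_N1 (T_SPL T_N0)) N3_true N4_true T_KF (T_N5b T_KF N4_true)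
    (T_N6 T_KF) BH_true T2_RC AS0_true a ha ε hε

theorem prime_lim (a ε : ℝ) (ha : 2 < a) (hε : 0 < ε) :
    Tendsto (fun X : ℕ => (((Finset.Ioc 0 X).filter (fun D => D.Prime ∧ ¬ GoodE a ε D)).card : ℝ) /
      (((Finset.Ioc 0 X).filter Nat.Prime).card : ℝ)) atTop (nhds 0) := by
  refine (finalEP_true a ε ha hε).congr (fun X => ?_)
  have e : ∀ f : ℕ → Prop, (∀ d, f d → 2 ≤ d) →
      ((Finset.Icc 2 X).filter f) = ((Finset.Ioc 0 X).filter f) := by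
    intro f hf
    ext d
    rw [mem_filter, mem_filter, mem_Icc, mem_Ioc]
    constructor
    · rintro ⟨⟨h1, h2⟩, h3⟩
      exact ⟨⟨by omega, h2⟩, h3⟩
    · rintro ⟨⟨h1, h2⟩, h3⟩
      exact ⟨⟨hf d h3, h2⟩, h3⟩
  congr 2
  · have := e (fun p => p.Prime ∧ ¬ GoodE a ε p) (fun d hd => hd.1.two_le)
    convert congrArg Finset.card this
  · have := e (fun p => p.Prime) (fun d hd => hd.two_le)
    convert congrArg Finset.card this

/-- the union of three families -/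
theorem union_lim (F1 F2 F3 E : ℕ → Prop)
    (h1 : Tendsto (fun X : ℕ => (((Finset.Ioc 0 X).filter (fun D => F1 D ∧ E D)).card : ℝ) /
      (((Finset.Ioc 0 X).filter F1).card : ℝ)) atTop (nhds 0))
    (h2 : Tendsto (fun X : ℕ => (((Finset.Ioc 0 X).filter (fun D => F2 D ∧ E D)).card : ℝ) /
      (((Finset.Ioc 0 X).filter F2).card : ℝ)) atTop (nhds 0))
    (h3 : Tendsto (fun X : ℕ => (((Finset.Ioc 0 X).filter (fun D => F3 D ∧ E D)).card : ℝ) /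
      (((Finset.Ioc 0 X).filter F3).card : ℝ)) atTop (nhds 0)) :
    Tendsto (fun X : ℕ => (((Finset.Ioc 0 X).filter (fun D => (F1 D ∨ F2 D ∨ F3 D) ∧ E D)).card : ℝ) /
      (((Finset.Ioc 0 X).filter (fun D => F1 D ∨ F2 D ∨ F3 D)).card : ℝ)) atTop (nhds 0) := by
  have h4 := (h1.add h2).add h3
  rw [add_zero, add_zero] at h4
  refine squeeze_zero (fun X => by positivity) (fun X => ?_) h4
  obtain ⟨d, hd⟩ : ∃ d, d = (((Finset.Ioc 0 X).filter (fun D => F1 D ∨ F2 D ∨ F3 D)).card : ℝ) :=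
    ⟨_, rfl⟩
  have key : ∀ F : ℕ → Prop, (∀ D, F D → F1 D ∨ F2 D ∨ F3 D) →
      (((Finset.Ioc 0 X).filter (fun D => F D ∧ E D)).card : ℝ) / d ≤
        (((Finset.Ioc 0 X).filter (fun D => F D ∧ E D)).card : ℝ) /
          (((Finset.Ioc 0 X).filter F).card : ℝ) := by
    intro F hF
    have e1 : ((Finset.Ioc 0 X).filter (fun D => F D ∧ E D)).card ≤
        ((Finset.Ioc 0 X).filter F).card := by
      apply card_le_card
      intro D hD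
      rw [mem_filter] at hD ⊢
      exact ⟨hD.1, hD.2.1⟩
    have e2 : (((Finset.Ioc 0 X).filter F).card : ℝ) ≤ d := by
      rw [hd]
      have : ((Finset.Ioc 0 X).filter F).card ≤
          ((Finset.Ioc 0 X).filter (fun D => F1 D ∨ F2 D ∨ F3 D)).card := by
        apply card_le_card
        intro D hD
        rw [mem_filter] at hD ⊢
        exact ⟨hD.1, hF D hD.2⟩
      exact_mod_cast this
    rcases Nat.eq_zero_or_pos ((Finset.Ioc 0 X).filter F).card with h0 | h0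
    · have h5 : ((Finset.Ioc 0 X).filter (fun D => F D ∧ E D)).card = 0 := by omega
      rw [h5, Nat.cast_zero, zero_div, zero_div]
    · have h6 : (0 : ℝ) < ((Finset.Ioc 0 X).filter F).card := by exact_mod_cast h0
      exact div_le_div_of_nonneg_left (by positivity) h6 e2
  have k1 := key F1 (fun D h => Or.inl h)
  have k2 := key F2 (fun D h => Or.inr (Or.inl h))
  have k3 := key F3 (fun D h => Or.inr (Or.inr h))
  have hsub : (Finset.Ioc 0 X).filter (fun D => (F1 D ∨ F2 D ∨ F3 D) ∧ E D) ⊆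
      ((Finset.Ioc 0 X).filter (fun D => F1 D ∧ E D) ∪
        (Finset.Ioc 0 X).filter (fun D => F2 D ∧ E D)) ∪
        (Finset.Ioc 0 X).filter (fun D => F3 D ∧ E D) := by
    intro D hD
    rw [mem_filter] at hD
    rw [mem_union, mem_union, mem_filter, mem_filter, mem_filter]
    obtain ⟨h5, h6 | h6 | h6, h7⟩ := hD
    · exact Or.inl (Or.inl ⟨h5, h6, h7⟩)
    · exact Or.inl (Or.inr ⟨h5, h6, h7⟩)
    · exact Or.inr ⟨h5, h6, h7⟩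
  have hc : (((Finset.Ioc 0 X).filter (fun D => (F1 D ∨ F2 D ∨ F3 D) ∧ E D)).card : ℝ) ≤
      (((Finset.Ioc 0 X).filter (fun D => F1 D ∧ E D)).card : ℝ) +
        (((Finset.Ioc 0 X).filter (fun D => F2 D ∧ E D)).card : ℝ) +
        (((Finset.Ioc 0 X).filter (fun D => F3 D ∧ E D)).card : ℝ) := by
    have := (card_le_card hsub).trans ((card_union_le _ _).trans
      (Nat.add_le_add_right (card_union_le _ _) _))
    exact_mod_cast this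
  have hd0 : 0 ≤ d := by rw [hd]; positivity
  rw [← hd]
  calc (((Finset.Ioc 0 X).filter (fun D => (F1 D ∨ F2 D ∨ F3 D) ∧ E D)).card : ℝ) / d ≤
      ((((Finset.Ioc 0 X).filter (fun D => F1 D ∧ E D)).card : ℝ) +
        (((Finset.Ioc 0 X).filter (fun D => F2 D ∧ E D)).card : ℝ) +
        (((Finset.Ioc 0 X).filter (fun D => F3 D ∧ E D)).card : ℝ)) / d :=
        div_le_div_of_nonneg_right hc hd0
    _ = (((Finset.Ioc 0 X).filter (fun D => F1 D ∧ E D)).card : ℝ) / d +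
        (((Finset.Ioc 0 X).filter (fun D => F2 D ∧ E D)).card : ℝ) / d +
        (((Finset.Ioc 0 X).filter (fun D => F3 D ∧ E D)).card : ℝ) / d := by ring
    _ ≤ _ := add_le_add (add_le_add k1 k2) k3

end Pool.Agent.Y892.UF
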